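import Pool.Agent.Q326.ZS.Swap

/-! The degree `10`. -/

set_option autoImplicit false

namespace Pool.Agent.Q326.ZS

lemma all10 (P : ZMod 10 → Prop) (h0 : P 0) (h1 : P 1) (h2 : P 2) (h3 : P 3) (h4 : P 4) (h5 : P 5) (h6 : P 6) (h7 : P 7) (h8 : P 8) (h9 : P 9) : ∀ x, P x := by
  have h : ∀ x : ZMod 10, x = 0 ∨ x = 1 ∨ x = 2 ∨ x = 3 ∨ x = 4 ∨ x = 5 ∨ x = 6 ∨ x = 7 ∨ x = 8 ∨ x = 9 := by decide +kernel
  intro x
  rcases h x with rfl | rfl | rfl | rfl | rfl | rfl | rfl | rfl | rfl | rfl <;> assumption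

lemma units10 (P : ZMod 10 → Prop) (h1 : P 1) (h3 : P 3) (h7 : P 7) (h9 : P 9) : ∀ x, IsUnit x → P x := by
  have h : ∀ x : ZMod 10, IsUnit x → x = 1 ∨ x = 3 ∨ x = 7 ∨ x = 9 := by decide +kernel
  intro x hx
  rcases h x hx with rfl | rfl | rfl | rfl <;> assumption

lemma sum10 (f : Fin 10 → ℕ) : ∑ x, f x = f 0 + f 1 + f 2 + f 3 + f 4 + f 5 + f 6 + f 7 + f 8 + f 9 := by
  simp only [Fin.sum_univ_castSucc, Finset.univ_eq_empty, Finset.sum_empty, zero_add]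
  rfl

lemma s10_1 (v : ZMod 10 → ℕ) : S 1 v = v 0 * 0 + v 1 * 1 + v 2 * 2 + v 3 * 3 + v 4 * 4 + v 5 * 5 + v 6 * 6 + v 7 * 7 + v 8 * 8 + v 9 * 9 :=
  sum10 (fun x : ZMod 10 => v x * ((1 : ZMod 10) * x).val)

lemma s10_3 (v : ZMod 10 → ℕ) : S 3 v = v 0 * 0 + v 1 * 3 + v 2 * 6 + v 3 * 9 + v 4 * 2 + v 5 * 5 + v 6 * 8 + v 7 * 1 + v 8 * 4 + v 9 * 7 :=
  sum10 (fun x : ZMod 10 => v x * ((3 : ZMod 10) * x).val)

lemma s10_7 (v : ZMod 10 → ℕ) : S 7 v = v 0 * 0 + v 1 * 7 + v 2 * 4 + v 3 * 1 + v 4 * 8 + v 5 * 5 + v 6 * 2 + v 7 * 9 + v 8 * 6 + v 9 * 3 :=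
  sum10 (fun x : ZMod 10 => v x * ((7 : ZMod 10) * x).val)

lemma s10_9 (v : ZMod 10 → ℕ) : S 9 v = v 0 * 0 + v 1 * 9 + v 2 * 8 + v 3 * 7 + v 4 * 6 + v 5 * 5 + v 6 * 4 + v 7 * 3 + v 8 * 2 + v 9 * 1 :=
  sum10 (fun x : ZMod 10 => v x * ((9 : ZMod 10) * x).val)

/-- the potential for degree `10` -/
def phi10 : ZMod 10 → ℕ := (![0, 1, 2, 1, 2, 3, 2, 1, 2, 1] : Fin 10 → ℕ)

set_option maxHeartbeats 4000000 in
set_option maxRecDepth 20000 in
theorem sstep10 : SStep 10 phi10 := by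
  intro v h0 hx hd hL
  have hpos : 0 < v 1 + v 2 + v 3 + v 4 + v 5 + v 6 + v 7 + v 8 + v 9 := by
    by_contra hcon
    obtain ⟨x, hx⟩ := hx
    apply hx
    clear hx hd hL
    revert x
    exact all10 _ h0 (by omega) (by omega) (by omega) (by omega) (by omega) (by omega) (by omega) (by omega) (by omega)
  have l3 : S 1 v ≤ S 3 v := hL 3 (by decide +kernel)
  have l7 : S 1 v ≤ S 7 v := hL 7 (by decide +kernel)
  have l9 : S 1 v ≤ S 9 v := hL 9 (by decide +kernel)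
  have e1 := s10_1 v
  have e3 := s10_3 v
  have e7 := s10_7 v
  have e9 := s10_9 v
  clear hL hx
  by_cases c0 : 1 ≤ v 1
  · by_cases c1 : 1 ≤ v 9
    · exact Or.inl ⟨(![0, 1, 0, 0, 0, 0, 0, 0, 0, 1] : Fin 10 → ℕ), all10 _ (Nat.zero_le _) (show 1 ≤ v 1 by omega) (Nat.zero_le _) (Nat.zero_le _) (Nat.zero_le _) (Nat.zero_le _) (Nat.zero_le _) (Nat.zero_le _) (Nat.zero_le _) (show 1 ≤ v 9 by omega),
        by decide +kernel, units10 _ ⟨10, by decide +kernel, le_refl _⟩ ⟨10, by decide +kernel, by omega⟩ ⟨10, by decide +kernel, by omega⟩ ⟨10, by decide +kernel, by omega⟩⟩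
    by_cases c2 : 1 ≤ v 2
    · by_cases c3 : 1 ≤ v 8
      · exact Or.inl ⟨(![0, 0, 1, 0, 0, 0, 0, 0, 1, 0] : Fin 10 → ℕ), all10 _ (Nat.zero_le _) (Nat.zero_le _) (show 1 ≤ v 2 by omega) (Nat.zero_le _) (Nat.zero_le _) (Nat.zero_le _) (Nat.zero_le _) (Nat.zero_le _) (show 1 ≤ v 8 by omega) (Nat.zero_le _),
          by decide +kernel, units10 _ ⟨10, by decide +kernel, le_refl _⟩ ⟨10, by decide +kernel, by omega⟩ ⟨10, by decide +kernel, by omega⟩ ⟨10, by decide +kernel, by omega⟩⟩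
      by_cases c4 : 1 ≤ v 3
      · by_cases c5 : 1 ≤ v 7
        · exact Or.inl ⟨(![0, 0, 0, 1, 0, 0, 0, 1, 0, 0] : Fin 10 → ℕ), all10 _ (Nat.zero_le _) (Nat.zero_le _) (Nat.zero_le _) (show 1 ≤ v 3 by omega) (Nat.zero_le _) (Nat.zero_le _) (Nat.zero_le _) (show 1 ≤ v 7 by omega) (Nat.zero_le _) (Nat.zero_le _),
            by decide +kernel, units10 _ ⟨10, by decide +kernel, le_refl _⟩ ⟨10, by decide +kernel, by omega⟩ ⟨10, by decide +kernel, by omega⟩ ⟨10, by decide +kernel, by omega⟩⟩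
        by_cases c6 : 1 ≤ v 4
        · by_cases c7 : 1 ≤ v 6
          · exact Or.inl ⟨(![0, 0, 0, 0, 1, 0, 1, 0, 0, 0] : Fin 10 → ℕ), all10 _ (Nat.zero_le _) (Nat.zero_le _) (Nat.zero_le _) (Nat.zero_le _) (show 1 ≤ v 4 by omega) (Nat.zero_le _) (show 1 ≤ v 6 by omega) (Nat.zero_le _) (Nat.zero_le _) (Nat.zero_le _),
              by decide +kernel, units10 _ ⟨10, by decide +kernel, le_refl _⟩ ⟨10, by decide +kernel, by omega⟩ ⟨10, by decide +kernel, by omega⟩ ⟨10, by decide +kernel, by omega⟩⟩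
          by_cases c8 : 1 ≤ v 5
          · exact Or.inr ⟨2, 5, 1, 6, by decide +kernel, Or.inl ⟨by decide, by omega, by omega⟩⟩
          by_cases c9 : 2 ≤ v 2
          · exact Or.inr ⟨2, 2, 1, 3, by decide +kernel, Or.inr ⟨rfl, by omega⟩⟩
          by_cases c10 : 2 ≤ v 4
          · exact Or.inr ⟨4, 4, 1, 7, by decide +kernel, Or.inr ⟨rfl, by omega⟩⟩
          by_cases c11 : 3 ≤ v 3
          · exact Or.inl ⟨(![0, 1, 0, 3, 0, 0, 0, 0, 0, 0] : Fin 10 → ℕ), all10 _ (Nat.zero_le _) (show 1 ≤ v 1 by omega) (Nat.zero_le _) (show 3 ≤ v 3 by omega) (Nat.zero_le _) (Nat.zero_le _) (Nat.zero_le _) (Nat.zero_le _) (Nat.zero_le _) (Nat.zero_le _),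
              by decide +kernel, units10 _ ⟨10, by decide +kernel, le_refl _⟩ ⟨30, by decide +kernel, by omega⟩ ⟨10, by decide +kernel, by omega⟩ ⟨30, by decide +kernel, by omega⟩⟩
          by_cases c12 : 7 ≤ v 1
          · exact Or.inl ⟨(![0, 7, 0, 1, 0, 0, 0, 0, 0, 0] : Fin 10 → ℕ), all10 _ (Nat.zero_le _) (show 7 ≤ v 1 by omega) (Nat.zero_le _) (show 1 ≤ v 3 by omega) (Nat.zero_le _) (Nat.zero_le _) (Nat.zero_le _) (Nat.zero_le _) (Nat.zero_le _) (Nat.zero_le _),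
              by decide +kernel, units10 _ ⟨10, by decide +kernel, le_refl _⟩ ⟨30, by decide +kernel, by omega⟩ ⟨50, by decide +kernel, by omega⟩ ⟨70, by decide +kernel, by omega⟩⟩
          by_cases c13 : 2 ≤ v 3
          · exfalso; first | omega | (rcases (by omega : v 1 = 1 ∨ v 1 = 2 ∨ v 1 = 3 ∨ v 1 = 4 ∨ v 1 = 5 ∨ v 1 = 6) with q1 | q1 | q1 | q1 | q1 | q1 <;> omega)
          exact Or.inl ⟨(![0, 1, 1, 1, 1, 0, 0, 0, 0, 0] : Fin 10 → ℕ), all10 _ (Nat.zero_le _) (show 1 ≤ v 1 by omega) (show 1 ≤ v 2 by omega) (show 1 ≤ v 3 by omega) (show 1 ≤ v 4 by omega) (Nat.zero_le _) (Nat.zero_le _) (Nat.zero_le _) (Nat.zero_le _) (Nat.zero_le _),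
            by decide +kernel, units10 _ ⟨10, by decide +kernel, le_refl _⟩ ⟨20, by decide +kernel, by omega⟩ ⟨20, by decide +kernel, by omega⟩ ⟨30, by decide +kernel, by omega⟩⟩
        by_cases c14 : 1 ≤ v 6
        · by_cases c15 : 1 ≤ v 5
          · exact Or.inr ⟨2, 5, 1, 6, by decide +kernel, Or.inl ⟨by decide, by omega, by omega⟩⟩
          by_cases c16 : 2 ≤ v 2
          · exact Or.inr ⟨2, 2, 1, 3, by decide +kernel, Or.inr ⟨rfl, by omega⟩⟩
          by_cases c17 : 2 ≤ v 6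
          · exact Or.inr ⟨6, 6, 3, 9, by decide +kernel, Or.inr ⟨rfl, by omega⟩⟩
          by_cases c18 : 3 ≤ v 3
          · exact Or.inl ⟨(![0, 1, 0, 3, 0, 0, 0, 0, 0, 0] : Fin 10 → ℕ), all10 _ (Nat.zero_le _) (show 1 ≤ v 1 by omega) (Nat.zero_le _) (show 3 ≤ v 3 by omega) (Nat.zero_le _) (Nat.zero_le _) (Nat.zero_le _) (Nat.zero_le _) (Nat.zero_le _) (Nat.zero_le _),
              by decide +kernel, units10 _ ⟨10, by decide +kernel, le_refl _⟩ ⟨30, by decide +kernel, by omega⟩ ⟨10, by decide +kernel, by omega⟩ ⟨30, by decide +kernel, by omega⟩⟩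
          by_cases c19 : 7 ≤ v 1
          · exact Or.inl ⟨(![0, 7, 0, 1, 0, 0, 0, 0, 0, 0] : Fin 10 → ℕ), all10 _ (Nat.zero_le _) (show 7 ≤ v 1 by omega) (Nat.zero_le _) (show 1 ≤ v 3 by omega) (Nat.zero_le _) (Nat.zero_le _) (Nat.zero_le _) (Nat.zero_le _) (Nat.zero_le _) (Nat.zero_le _),
              by decide +kernel, units10 _ ⟨10, by decide +kernel, le_refl _⟩ ⟨30, by decide +kernel, by omega⟩ ⟨50, by decide +kernel, by omega⟩ ⟨70, by decide +kernel, by omega⟩⟩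
          exact Or.inl ⟨(![0, 1, 0, 1, 0, 0, 1, 0, 0, 0] : Fin 10 → ℕ), all10 _ (Nat.zero_le _) (show 1 ≤ v 1 by omega) (Nat.zero_le _) (show 1 ≤ v 3 by omega) (Nat.zero_le _) (Nat.zero_le _) (show 1 ≤ v 6 by omega) (Nat.zero_le _) (Nat.zero_le _) (Nat.zero_le _),
            by decide +kernel, units10 _ ⟨10, by decide +kernel, le_refl _⟩ ⟨20, by decide +kernel, by omega⟩ ⟨10, by decide +kernel, by omega⟩ ⟨20, by decide +kernel, by omega⟩⟩
        by_cases c20 : 1 ≤ v 5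
        · exact Or.inr ⟨2, 5, 1, 6, by decide +kernel, Or.inl ⟨by decide, by omega, by omega⟩⟩
        by_cases c21 : 2 ≤ v 2
        · exact Or.inr ⟨2, 2, 1, 3, by decide +kernel, Or.inr ⟨rfl, by omega⟩⟩
        by_cases c22 : 3 ≤ v 3
        · exact Or.inl ⟨(![0, 1, 0, 3, 0, 0, 0, 0, 0, 0] : Fin 10 → ℕ), all10 _ (Nat.zero_le _) (show 1 ≤ v 1 by omega) (Nat.zero_le _) (show 3 ≤ v 3 by omega) (Nat.zero_le _) (Nat.zero_le _) (Nat.zero_le _) (Nat.zero_le _) (Nat.zero_le _) (Nat.zero_le _),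
            by decide +kernel, units10 _ ⟨10, by decide +kernel, le_refl _⟩ ⟨30, by decide +kernel, by omega⟩ ⟨10, by decide +kernel, by omega⟩ ⟨30, by decide +kernel, by omega⟩⟩
        by_cases c23 : 7 ≤ v 1
        · exact Or.inl ⟨(![0, 7, 0, 1, 0, 0, 0, 0, 0, 0] : Fin 10 → ℕ), all10 _ (Nat.zero_le _) (show 7 ≤ v 1 by omega) (Nat.zero_le _) (show 1 ≤ v 3 by omega) (Nat.zero_le _) (Nat.zero_le _) (Nat.zero_le _) (Nat.zero_le _) (Nat.zero_le _) (Nat.zero_le _),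
            by decide +kernel, units10 _ ⟨10, by decide +kernel, le_refl _⟩ ⟨30, by decide +kernel, by omega⟩ ⟨50, by decide +kernel, by omega⟩ ⟨70, by decide +kernel, by omega⟩⟩
        by_cases c24 : 2 ≤ v 1
        · by_cases c25 : 2 ≤ v 3
          · exact Or.inl ⟨(![0, 2, 1, 2, 0, 0, 0, 0, 0, 0] : Fin 10 → ℕ), all10 _ (Nat.zero_le _) (show 2 ≤ v 1 by omega) (show 1 ≤ v 2 by omega) (show 2 ≤ v 3 by omega) (Nat.zero_le _) (Nat.zero_le _) (Nat.zero_le _) (Nat.zero_le _) (Nat.zero_le _) (Nat.zero_le _),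
              by decide +kernel, units10 _ ⟨10, by decide +kernel, le_refl _⟩ ⟨30, by decide +kernel, by omega⟩ ⟨20, by decide +kernel, by omega⟩ ⟨40, by decide +kernel, by omega⟩⟩
          by_cases c26 : 5 ≤ v 1
          · exact Or.inl ⟨(![0, 5, 1, 1, 0, 0, 0, 0, 0, 0] : Fin 10 → ℕ), all10 _ (Nat.zero_le _) (show 5 ≤ v 1 by omega) (show 1 ≤ v 2 by omega) (show 1 ≤ v 3 by omega) (Nat.zero_le _) (Nat.zero_le _) (Nat.zero_le _) (Nat.zero_le _) (Nat.zero_le _) (Nat.zero_le _),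
              by decide +kernel, units10 _ ⟨10, by decide +kernel, le_refl _⟩ ⟨30, by decide +kernel, by omega⟩ ⟨40, by decide +kernel, by omega⟩ ⟨60, by decide +kernel, by omega⟩⟩
          exfalso; first | omega | (rcases (by omega : v 1 = 2 ∨ v 1 = 3 ∨ v 1 = 4) with q1 | q1 | q1 <;> omega)
        exfalso; first | omega | (rcases (by omega : v 3 = 1 ∨ v 3 = 2) with q3 | q3 <;> omega)
      by_cases c27 : 1 ≤ v 7
      · by_cases c28 : 1 ≤ v 4
        · by_cases c29 : 1 ≤ v 6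
          · exact Or.inl ⟨(![0, 0, 0, 0, 1, 0, 1, 0, 0, 0] : Fin 10 → ℕ), all10 _ (Nat.zero_le _) (Nat.zero_le _) (Nat.zero_le _) (Nat.zero_le _) (show 1 ≤ v 4 by omega) (Nat.zero_le _) (show 1 ≤ v 6 by omega) (Nat.zero_le _) (Nat.zero_le _) (Nat.zero_le _),
              by decide +kernel, units10 _ ⟨10, by decide +kernel, le_refl _⟩ ⟨10, by decide +kernel, by omega⟩ ⟨10, by decide +kernel, by omega⟩ ⟨10, by decide +kernel, by omega⟩⟩
          by_cases c30 : 1 ≤ v 5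
          · exact Or.inr ⟨2, 5, 1, 6, by decide +kernel, Or.inl ⟨by decide, by omega, by omega⟩⟩
          by_cases c31 : 2 ≤ v 2
          · exact Or.inr ⟨2, 2, 1, 3, by decide +kernel, Or.inr ⟨rfl, by omega⟩⟩
          by_cases c32 : 2 ≤ v 4
          · exact Or.inr ⟨4, 4, 1, 7, by decide +kernel, Or.inr ⟨rfl, by omega⟩⟩
          by_cases c33 : 3 ≤ v 1
          · exact Or.inl ⟨(![0, 3, 0, 0, 0, 0, 0, 1, 0, 0] : Fin 10 → ℕ), all10 _ (Nat.zero_le _) (show 3 ≤ v 1 by omega) (Nat.zero_le _) (Nat.zero_le _) (Nat.zero_le _) (Nat.zero_le _) (Nat.zero_le _) (show 1 ≤ v 7 by omega) (Nat.zero_le _) (Nat.zero_le _),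
              by decide +kernel, units10 _ ⟨10, by decide +kernel, le_refl _⟩ ⟨10, by decide +kernel, by omega⟩ ⟨30, by decide +kernel, by omega⟩ ⟨30, by decide +kernel, by omega⟩⟩
          exfalso; first | omega | (rcases (by omega : v 1 = 1 ∨ v 1 = 2) with q1 | q1 <;> omega)
        by_cases c34 : 1 ≤ v 6
        · by_cases c35 : 1 ≤ v 5
          · exact Or.inr ⟨2, 5, 1, 6, by decide +kernel, Or.inl ⟨by decide, by omega, by omega⟩⟩
          by_cases c36 : 2 ≤ v 2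
          · exact Or.inr ⟨2, 2, 1, 3, by decide +kernel, Or.inr ⟨rfl, by omega⟩⟩
          by_cases c37 : 2 ≤ v 6
          · exact Or.inr ⟨6, 6, 3, 9, by decide +kernel, Or.inr ⟨rfl, by omega⟩⟩
          by_cases c38 : 3 ≤ v 1
          · exact Or.inl ⟨(![0, 3, 0, 0, 0, 0, 0, 1, 0, 0] : Fin 10 → ℕ), all10 _ (Nat.zero_le _) (show 3 ≤ v 1 by omega) (Nat.zero_le _) (Nat.zero_le _) (Nat.zero_le _) (Nat.zero_le _) (Nat.zero_le _) (show 1 ≤ v 7 by omega) (Nat.zero_le _) (Nat.zero_le _),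
              by decide +kernel, units10 _ ⟨10, by decide +kernel, le_refl _⟩ ⟨10, by decide +kernel, by omega⟩ ⟨30, by decide +kernel, by omega⟩ ⟨30, by decide +kernel, by omega⟩⟩
          exfalso; first | omega | (rcases (by omega : v 1 = 1 ∨ v 1 = 2) with q1 | q1 <;> omega)
        by_cases c39 : 1 ≤ v 5
        · exact Or.inr ⟨2, 5, 1, 6, by decide +kernel, Or.inl ⟨by decide, by omega, by omega⟩⟩
        by_cases c40 : 2 ≤ v 2
        · exact Or.inr ⟨2, 2, 1, 3, by decide +kernel, Or.inr ⟨rfl, by omega⟩⟩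
        by_cases c41 : 3 ≤ v 1
        · exact Or.inl ⟨(![0, 3, 0, 0, 0, 0, 0, 1, 0, 0] : Fin 10 → ℕ), all10 _ (Nat.zero_le _) (show 3 ≤ v 1 by omega) (Nat.zero_le _) (Nat.zero_le _) (Nat.zero_le _) (Nat.zero_le _) (Nat.zero_le _) (show 1 ≤ v 7 by omega) (Nat.zero_le _) (Nat.zero_le _),
            by decide +kernel, units10 _ ⟨10, by decide +kernel, le_refl _⟩ ⟨10, by decide +kernel, by omega⟩ ⟨30, by decide +kernel, by omega⟩ ⟨30, by decide +kernel, by omega⟩⟩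
        exact Or.inl ⟨(![0, 1, 1, 0, 0, 0, 0, 1, 0, 0] : Fin 10 → ℕ), all10 _ (Nat.zero_le _) (show 1 ≤ v 1 by omega) (show 1 ≤ v 2 by omega) (Nat.zero_le _) (Nat.zero_le _) (Nat.zero_le _) (Nat.zero_le _) (show 1 ≤ v 7 by omega) (Nat.zero_le _) (Nat.zero_le _),
          by decide +kernel, units10 _ ⟨10, by decide +kernel, le_refl _⟩ ⟨10, by decide +kernel, by omega⟩ ⟨20, by decide +kernel, by omega⟩ ⟨20, by decide +kernel, by omega⟩⟩
      by_cases c42 : 1 ≤ v 4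
      · by_cases c43 : 1 ≤ v 6
        · exact Or.inl ⟨(![0, 0, 0, 0, 1, 0, 1, 0, 0, 0] : Fin 10 → ℕ), all10 _ (Nat.zero_le _) (Nat.zero_le _) (Nat.zero_le _) (Nat.zero_le _) (show 1 ≤ v 4 by omega) (Nat.zero_le _) (show 1 ≤ v 6 by omega) (Nat.zero_le _) (Nat.zero_le _) (Nat.zero_le _),
            by decide +kernel, units10 _ ⟨10, by decide +kernel, le_refl _⟩ ⟨10, by decide +kernel, by omega⟩ ⟨10, by decide +kernel, by omega⟩ ⟨10, by decide +kernel, by omega⟩⟩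
        by_cases c44 : 1 ≤ v 5
        · exact Or.inr ⟨2, 5, 1, 6, by decide +kernel, Or.inl ⟨by decide, by omega, by omega⟩⟩
        by_cases c45 : 2 ≤ v 2
        · exact Or.inr ⟨2, 2, 1, 3, by decide +kernel, Or.inr ⟨rfl, by omega⟩⟩
        by_cases c46 : 2 ≤ v 4
        · exact Or.inr ⟨4, 4, 1, 7, by decide +kernel, Or.inr ⟨rfl, by omega⟩⟩
        by_cases c47 : 10 ≤ v 1
        · exact Or.inl ⟨(![0, 10, 0, 0, 0, 0, 0, 0, 0, 0] : Fin 10 → ℕ), all10 _ (Nat.zero_le _) (show 10 ≤ v 1 by omega) (Nat.zero_le _) (Nat.zero_le _) (Nat.zero_le _) (Nat.zero_le _) (Nat.zero_le _) (Nat.zero_le _) (Nat.zero_le _) (Nat.zero_le _),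
            by decide +kernel, units10 _ ⟨10, by decide +kernel, le_refl _⟩ ⟨30, by decide +kernel, by omega⟩ ⟨70, by decide +kernel, by omega⟩ ⟨90, by decide +kernel, by omega⟩⟩
        by_cases c48 : 4 ≤ v 1
        · exact Or.inl ⟨(![0, 4, 1, 0, 1, 0, 0, 0, 0, 0] : Fin 10 → ℕ), all10 _ (Nat.zero_le _) (show 4 ≤ v 1 by omega) (show 1 ≤ v 2 by omega) (Nat.zero_le _) (show 1 ≤ v 4 by omega) (Nat.zero_le _) (Nat.zero_le _) (Nat.zero_le _) (Nat.zero_le _) (Nat.zero_le _),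
            by decide +kernel, units10 _ ⟨10, by decide +kernel, le_refl _⟩ ⟨20, by decide +kernel, by omega⟩ ⟨40, by decide +kernel, by omega⟩ ⟨50, by decide +kernel, by omega⟩⟩
        exfalso; first | omega | (rcases (by omega : v 1 = 1 ∨ v 1 = 2 ∨ v 1 = 3) with q1 | q1 | q1 <;> omega)
      by_cases c49 : 1 ≤ v 6
      · by_cases c50 : 1 ≤ v 5
        · exact Or.inr ⟨2, 5, 1, 6, by decide +kernel, Or.inl ⟨by decide, by omega, by omega⟩⟩
        by_cases c51 : 2 ≤ v 2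
        · exact Or.inr ⟨2, 2, 1, 3, by decide +kernel, Or.inr ⟨rfl, by omega⟩⟩
        by_cases c52 : 2 ≤ v 6
        · exact Or.inr ⟨6, 6, 3, 9, by decide +kernel, Or.inr ⟨rfl, by omega⟩⟩
        by_cases c53 : 10 ≤ v 1
        · exact Or.inl ⟨(![0, 10, 0, 0, 0, 0, 0, 0, 0, 0] : Fin 10 → ℕ), all10 _ (Nat.zero_le _) (show 10 ≤ v 1 by omega) (Nat.zero_le _) (Nat.zero_le _) (Nat.zero_le _) (Nat.zero_le _) (Nat.zero_le _) (Nat.zero_le _) (Nat.zero_le _) (Nat.zero_le _),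
            by decide +kernel, units10 _ ⟨10, by decide +kernel, le_refl _⟩ ⟨30, by decide +kernel, by omega⟩ ⟨70, by decide +kernel, by omega⟩ ⟨90, by decide +kernel, by omega⟩⟩
        by_cases c54 : 2 ≤ v 1
        · exact Or.inl ⟨(![0, 2, 1, 0, 0, 0, 1, 0, 0, 0] : Fin 10 → ℕ), all10 _ (Nat.zero_le _) (show 2 ≤ v 1 by omega) (show 1 ≤ v 2 by omega) (Nat.zero_le _) (Nat.zero_le _) (Nat.zero_le _) (show 1 ≤ v 6 by omega) (Nat.zero_le _) (Nat.zero_le _) (Nat.zero_le _),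
            by decide +kernel, units10 _ ⟨10, by decide +kernel, le_refl _⟩ ⟨20, by decide +kernel, by omega⟩ ⟨20, by decide +kernel, by omega⟩ ⟨30, by decide +kernel, by omega⟩⟩
        exfalso; omega
      by_cases c55 : 1 ≤ v 5
      · exact Or.inr ⟨2, 5, 1, 6, by decide +kernel, Or.inl ⟨by decide, by omega, by omega⟩⟩
      by_cases c56 : 2 ≤ v 2
      · exact Or.inr ⟨2, 2, 1, 3, by decide +kernel, Or.inr ⟨rfl, by omega⟩⟩
      by_cases c57 : 10 ≤ v 1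
      · exact Or.inl ⟨(![0, 10, 0, 0, 0, 0, 0, 0, 0, 0] : Fin 10 → ℕ), all10 _ (Nat.zero_le _) (show 10 ≤ v 1 by omega) (Nat.zero_le _) (Nat.zero_le _) (Nat.zero_le _) (Nat.zero_le _) (Nat.zero_le _) (Nat.zero_le _) (Nat.zero_le _) (Nat.zero_le _),
          by decide +kernel, units10 _ ⟨10, by decide +kernel, le_refl _⟩ ⟨30, by decide +kernel, by omega⟩ ⟨70, by decide +kernel, by omega⟩ ⟨90, by decide +kernel, by omega⟩⟩
      by_cases c58 : 8 ≤ v 1
      · exact Or.inl ⟨(![0, 8, 1, 0, 0, 0, 0, 0, 0, 0] : Fin 10 → ℕ), all10 _ (Nat.zero_le _) (show 8 ≤ v 1 by omega) (show 1 ≤ v 2 by omega) (Nat.zero_le _) (Nat.zero_le _) (Nat.zero_le _) (Nat.zero_le _) (Nat.zero_le _) (Nat.zero_le _) (Nat.zero_le _),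
          by decide +kernel, units10 _ ⟨10, by decide +kernel, le_refl _⟩ ⟨30, by decide +kernel, by omega⟩ ⟨60, by decide +kernel, by omega⟩ ⟨80, by decide +kernel, by omega⟩⟩
      exfalso; first | omega | (rcases (by omega : v 1 = 1 ∨ v 1 = 2 ∨ v 1 = 3 ∨ v 1 = 4 ∨ v 1 = 5 ∨ v 1 = 6 ∨ v 1 = 7) with q1 | q1 | q1 | q1 | q1 | q1 | q1 <;> omega)
    by_cases c59 : 1 ≤ v 8
    · by_cases c60 : 1 ≤ v 3
      · by_cases c61 : 1 ≤ v 7
        · exact Or.inl ⟨(![0, 0, 0, 1, 0, 0, 0, 1, 0, 0] : Fin 10 → ℕ), all10 _ (Nat.zero_le _) (Nat.zero_le _) (Nat.zero_le _) (show 1 ≤ v 3 by omega) (Nat.zero_le _) (Nat.zero_le _) (Nat.zero_le _) (show 1 ≤ v 7 by omega) (Nat.zero_le _) (Nat.zero_le _),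
            by decide +kernel, units10 _ ⟨10, by decide +kernel, le_refl _⟩ ⟨10, by decide +kernel, by omega⟩ ⟨10, by decide +kernel, by omega⟩ ⟨10, by decide +kernel, by omega⟩⟩
        by_cases c62 : 1 ≤ v 4
        · by_cases c63 : 1 ≤ v 6
          · exact Or.inl ⟨(![0, 0, 0, 0, 1, 0, 1, 0, 0, 0] : Fin 10 → ℕ), all10 _ (Nat.zero_le _) (Nat.zero_le _) (Nat.zero_le _) (Nat.zero_le _) (show 1 ≤ v 4 by omega) (Nat.zero_le _) (show 1 ≤ v 6 by omega) (Nat.zero_le _) (Nat.zero_le _) (Nat.zero_le _),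
              by decide +kernel, units10 _ ⟨10, by decide +kernel, le_refl _⟩ ⟨10, by decide +kernel, by omega⟩ ⟨10, by decide +kernel, by omega⟩ ⟨10, by decide +kernel, by omega⟩⟩
          by_cases c64 : 1 ≤ v 5
          · exact Or.inr ⟨4, 5, 1, 8, by decide +kernel, Or.inl ⟨by decide, by omega, by omega⟩⟩
          by_cases c65 : 2 ≤ v 4
          · exact Or.inr ⟨4, 4, 1, 7, by decide +kernel, Or.inr ⟨rfl, by omega⟩⟩
          by_cases c66 : 2 ≤ v 8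
          · exact Or.inr ⟨8, 8, 7, 9, by decide +kernel, Or.inr ⟨rfl, by omega⟩⟩
          by_cases c67 : 3 ≤ v 3
          · exact Or.inl ⟨(![0, 1, 0, 3, 0, 0, 0, 0, 0, 0] : Fin 10 → ℕ), all10 _ (Nat.zero_le _) (show 1 ≤ v 1 by omega) (Nat.zero_le _) (show 3 ≤ v 3 by omega) (Nat.zero_le _) (Nat.zero_le _) (Nat.zero_le _) (Nat.zero_le _) (Nat.zero_le _) (Nat.zero_le _),
              by decide +kernel, units10 _ ⟨10, by decide +kernel, le_refl _⟩ ⟨30, by decide +kernel, by omega⟩ ⟨10, by decide +kernel, by omega⟩ ⟨30, by decide +kernel, by omega⟩⟩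
          by_cases c68 : 7 ≤ v 1
          · exact Or.inl ⟨(![0, 7, 0, 1, 0, 0, 0, 0, 0, 0] : Fin 10 → ℕ), all10 _ (Nat.zero_le _) (show 7 ≤ v 1 by omega) (Nat.zero_le _) (show 1 ≤ v 3 by omega) (Nat.zero_le _) (Nat.zero_le _) (Nat.zero_le _) (Nat.zero_le _) (Nat.zero_le _) (Nat.zero_le _),
              by decide +kernel, units10 _ ⟨10, by decide +kernel, le_refl _⟩ ⟨30, by decide +kernel, by omega⟩ ⟨50, by decide +kernel, by omega⟩ ⟨70, by decide +kernel, by omega⟩⟩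
          by_cases c69 : 2 ≤ v 1
          · exact Or.inl ⟨(![0, 2, 0, 0, 0, 0, 0, 0, 1, 0] : Fin 10 → ℕ), all10 _ (Nat.zero_le _) (show 2 ≤ v 1 by omega) (Nat.zero_le _) (Nat.zero_le _) (Nat.zero_le _) (Nat.zero_le _) (Nat.zero_le _) (Nat.zero_le _) (show 1 ≤ v 8 by omega) (Nat.zero_le _),
              by decide +kernel, units10 _ ⟨10, by decide +kernel, le_refl _⟩ ⟨10, by decide +kernel, by omega⟩ ⟨20, by decide +kernel, by omega⟩ ⟨20, by decide +kernel, by omega⟩⟩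
          exfalso; first | omega | (rcases (by omega : v 3 = 1 ∨ v 3 = 2) with q3 | q3 <;> omega)
        by_cases c70 : 1 ≤ v 6
        · by_cases c71 : 1 ≤ v 5
          · exact Or.inr ⟨5, 6, 2, 9, by decide +kernel, Or.inl ⟨by decide, by omega, by omega⟩⟩
          by_cases c72 : 2 ≤ v 6
          · exact Or.inr ⟨6, 6, 3, 9, by decide +kernel, Or.inr ⟨rfl, by omega⟩⟩
          by_cases c73 : 2 ≤ v 8
          · exact Or.inr ⟨8, 8, 7, 9, by decide +kernel, Or.inr ⟨rfl, by omega⟩⟩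
          by_cases c74 : 3 ≤ v 3
          · exact Or.inl ⟨(![0, 1, 0, 3, 0, 0, 0, 0, 0, 0] : Fin 10 → ℕ), all10 _ (Nat.zero_le _) (show 1 ≤ v 1 by omega) (Nat.zero_le _) (show 3 ≤ v 3 by omega) (Nat.zero_le _) (Nat.zero_le _) (Nat.zero_le _) (Nat.zero_le _) (Nat.zero_le _) (Nat.zero_le _),
              by decide +kernel, units10 _ ⟨10, by decide +kernel, le_refl _⟩ ⟨30, by decide +kernel, by omega⟩ ⟨10, by decide +kernel, by omega⟩ ⟨30, by decide +kernel, by omega⟩⟩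
          by_cases c75 : 7 ≤ v 1
          · exact Or.inl ⟨(![0, 7, 0, 1, 0, 0, 0, 0, 0, 0] : Fin 10 → ℕ), all10 _ (Nat.zero_le _) (show 7 ≤ v 1 by omega) (Nat.zero_le _) (show 1 ≤ v 3 by omega) (Nat.zero_le _) (Nat.zero_le _) (Nat.zero_le _) (Nat.zero_le _) (Nat.zero_le _) (Nat.zero_le _),
              by decide +kernel, units10 _ ⟨10, by decide +kernel, le_refl _⟩ ⟨30, by decide +kernel, by omega⟩ ⟨50, by decide +kernel, by omega⟩ ⟨70, by decide +kernel, by omega⟩⟩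
          by_cases c76 : 2 ≤ v 1
          · exact Or.inl ⟨(![0, 2, 0, 0, 0, 0, 0, 0, 1, 0] : Fin 10 → ℕ), all10 _ (Nat.zero_le _) (show 2 ≤ v 1 by omega) (Nat.zero_le _) (Nat.zero_le _) (Nat.zero_le _) (Nat.zero_le _) (Nat.zero_le _) (Nat.zero_le _) (show 1 ≤ v 8 by omega) (Nat.zero_le _),
              by decide +kernel, units10 _ ⟨10, by decide +kernel, le_refl _⟩ ⟨10, by decide +kernel, by omega⟩ ⟨20, by decide +kernel, by omega⟩ ⟨20, by decide +kernel, by omega⟩⟩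
          exfalso; first | omega | (rcases (by omega : v 3 = 1 ∨ v 3 = 2) with q3 | q3 <;> omega)
        by_cases c77 : 1 ≤ v 5
        · exact Or.inr ⟨5, 8, 4, 9, by decide +kernel, Or.inl ⟨by decide, by omega, by omega⟩⟩
        by_cases c78 : 2 ≤ v 8
        · exact Or.inr ⟨8, 8, 7, 9, by decide +kernel, Or.inr ⟨rfl, by omega⟩⟩
        by_cases c79 : 3 ≤ v 3
        · exact Or.inl ⟨(![0, 1, 0, 3, 0, 0, 0, 0, 0, 0] : Fin 10 → ℕ), all10 _ (Nat.zero_le _) (show 1 ≤ v 1 by omega) (Nat.zero_le _) (show 3 ≤ v 3 by omega) (Nat.zero_le _) (Nat.zero_le _) (Nat.zero_le _) (Nat.zero_le _) (Nat.zero_le _) (Nat.zero_le _),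
            by decide +kernel, units10 _ ⟨10, by decide +kernel, le_refl _⟩ ⟨30, by decide +kernel, by omega⟩ ⟨10, by decide +kernel, by omega⟩ ⟨30, by decide +kernel, by omega⟩⟩
        by_cases c80 : 7 ≤ v 1
        · exact Or.inl ⟨(![0, 7, 0, 1, 0, 0, 0, 0, 0, 0] : Fin 10 → ℕ), all10 _ (Nat.zero_le _) (show 7 ≤ v 1 by omega) (Nat.zero_le _) (show 1 ≤ v 3 by omega) (Nat.zero_le _) (Nat.zero_le _) (Nat.zero_le _) (Nat.zero_le _) (Nat.zero_le _) (Nat.zero_le _),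
            by decide +kernel, units10 _ ⟨10, by decide +kernel, le_refl _⟩ ⟨30, by decide +kernel, by omega⟩ ⟨50, by decide +kernel, by omega⟩ ⟨70, by decide +kernel, by omega⟩⟩
        by_cases c81 : 2 ≤ v 1
        · exact Or.inl ⟨(![0, 2, 0, 0, 0, 0, 0, 0, 1, 0] : Fin 10 → ℕ), all10 _ (Nat.zero_le _) (show 2 ≤ v 1 by omega) (Nat.zero_le _) (Nat.zero_le _) (Nat.zero_le _) (Nat.zero_le _) (Nat.zero_le _) (Nat.zero_le _) (show 1 ≤ v 8 by omega) (Nat.zero_le _),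
            by decide +kernel, units10 _ ⟨10, by decide +kernel, le_refl _⟩ ⟨10, by decide +kernel, by omega⟩ ⟨20, by decide +kernel, by omega⟩ ⟨20, by decide +kernel, by omega⟩⟩
        exfalso; first | omega | (rcases (by omega : v 3 = 1 ∨ v 3 = 2) with q3 | q3 <;> omega)
      by_cases c82 : 1 ≤ v 7
      · by_cases c83 : 1 ≤ v 4
        · by_cases c84 : 1 ≤ v 6
          · exact Or.inl ⟨(![0, 0, 0, 0, 1, 0, 1, 0, 0, 0] : Fin 10 → ℕ), all10 _ (Nat.zero_le _) (Nat.zero_le _) (Nat.zero_le _) (Nat.zero_le _) (show 1 ≤ v 4 by omega) (Nat.zero_le _) (show 1 ≤ v 6 by omega) (Nat.zero_le _) (Nat.zero_le _) (Nat.zero_le _),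
              by decide +kernel, units10 _ ⟨10, by decide +kernel, le_refl _⟩ ⟨10, by decide +kernel, by omega⟩ ⟨10, by decide +kernel, by omega⟩ ⟨10, by decide +kernel, by omega⟩⟩
          by_cases c85 : 1 ≤ v 5
          · exact Or.inr ⟨4, 5, 1, 8, by decide +kernel, Or.inl ⟨by decide, by omega, by omega⟩⟩
          by_cases c86 : 2 ≤ v 4
          · exact Or.inr ⟨4, 4, 1, 7, by decide +kernel, Or.inr ⟨rfl, by omega⟩⟩
          by_cases c87 : 2 ≤ v 8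
          · exact Or.inr ⟨8, 8, 7, 9, by decide +kernel, Or.inr ⟨rfl, by omega⟩⟩
          by_cases c88 : 3 ≤ v 1
          · exact Or.inl ⟨(![0, 3, 0, 0, 0, 0, 0, 1, 0, 0] : Fin 10 → ℕ), all10 _ (Nat.zero_le _) (show 3 ≤ v 1 by omega) (Nat.zero_le _) (Nat.zero_le _) (Nat.zero_le _) (Nat.zero_le _) (Nat.zero_le _) (show 1 ≤ v 7 by omega) (Nat.zero_le _) (Nat.zero_le _),
              by decide +kernel, units10 _ ⟨10, by decide +kernel, le_refl _⟩ ⟨10, by decide +kernel, by omega⟩ ⟨30, by decide +kernel, by omega⟩ ⟨30, by decide +kernel, by omega⟩⟩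
          exfalso; first | omega | (rcases (by omega : v 1 = 1 ∨ v 1 = 2) with q1 | q1 <;> omega)
        by_cases c89 : 1 ≤ v 6
        · by_cases c90 : 1 ≤ v 5
          · exact Or.inr ⟨5, 6, 2, 9, by decide +kernel, Or.inl ⟨by decide, by omega, by omega⟩⟩
          by_cases c91 : 2 ≤ v 6
          · exact Or.inr ⟨6, 6, 3, 9, by decide +kernel, Or.inr ⟨rfl, by omega⟩⟩
          by_cases c92 : 2 ≤ v 8
          · exact Or.inr ⟨8, 8, 7, 9, by decide +kernel, Or.inr ⟨rfl, by omega⟩⟩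
          by_cases c93 : 3 ≤ v 1
          · exact Or.inl ⟨(![0, 3, 0, 0, 0, 0, 0, 1, 0, 0] : Fin 10 → ℕ), all10 _ (Nat.zero_le _) (show 3 ≤ v 1 by omega) (Nat.zero_le _) (Nat.zero_le _) (Nat.zero_le _) (Nat.zero_le _) (Nat.zero_le _) (show 1 ≤ v 7 by omega) (Nat.zero_le _) (Nat.zero_le _),
              by decide +kernel, units10 _ ⟨10, by decide +kernel, le_refl _⟩ ⟨10, by decide +kernel, by omega⟩ ⟨30, by decide +kernel, by omega⟩ ⟨30, by decide +kernel, by omega⟩⟩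
          exfalso; first | omega | (rcases (by omega : v 1 = 1 ∨ v 1 = 2) with q1 | q1 <;> omega)
        by_cases c94 : 1 ≤ v 5
        · exact Or.inr ⟨5, 8, 4, 9, by decide +kernel, Or.inl ⟨by decide, by omega, by omega⟩⟩
        by_cases c95 : 2 ≤ v 8
        · exact Or.inr ⟨8, 8, 7, 9, by decide +kernel, Or.inr ⟨rfl, by omega⟩⟩
        by_cases c96 : 3 ≤ v 1
        · exact Or.inl ⟨(![0, 3, 0, 0, 0, 0, 0, 1, 0, 0] : Fin 10 → ℕ), all10 _ (Nat.zero_le _) (show 3 ≤ v 1 by omega) (Nat.zero_le _) (Nat.zero_le _) (Nat.zero_le _) (Nat.zero_le _) (Nat.zero_le _) (show 1 ≤ v 7 by omega) (Nat.zero_le _) (Nat.zero_le _),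
            by decide +kernel, units10 _ ⟨10, by decide +kernel, le_refl _⟩ ⟨10, by decide +kernel, by omega⟩ ⟨30, by decide +kernel, by omega⟩ ⟨30, by decide +kernel, by omega⟩⟩
        exfalso; first | omega | (rcases (by omega : v 1 = 1 ∨ v 1 = 2) with q1 | q1 <;> omega)
      by_cases c97 : 1 ≤ v 4
      · by_cases c98 : 1 ≤ v 6
        · exact Or.inl ⟨(![0, 0, 0, 0, 1, 0, 1, 0, 0, 0] : Fin 10 → ℕ), all10 _ (Nat.zero_le _) (Nat.zero_le _) (Nat.zero_le _) (Nat.zero_le _) (show 1 ≤ v 4 by omega) (Nat.zero_le _) (show 1 ≤ v 6 by omega) (Nat.zero_le _) (Nat.zero_le _) (Nat.zero_le _),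
            by decide +kernel, units10 _ ⟨10, by decide +kernel, le_refl _⟩ ⟨10, by decide +kernel, by omega⟩ ⟨10, by decide +kernel, by omega⟩ ⟨10, by decide +kernel, by omega⟩⟩
        by_cases c99 : 1 ≤ v 5
        · exact Or.inr ⟨4, 5, 1, 8, by decide +kernel, Or.inl ⟨by decide, by omega, by omega⟩⟩
        by_cases c100 : 2 ≤ v 4
        · exact Or.inr ⟨4, 4, 1, 7, by decide +kernel, Or.inr ⟨rfl, by omega⟩⟩
        by_cases c101 : 2 ≤ v 8
        · exact Or.inr ⟨8, 8, 7, 9, by decide +kernel, Or.inr ⟨rfl, by omega⟩⟩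
        by_cases c102 : 10 ≤ v 1
        · exact Or.inl ⟨(![0, 10, 0, 0, 0, 0, 0, 0, 0, 0] : Fin 10 → ℕ), all10 _ (Nat.zero_le _) (show 10 ≤ v 1 by omega) (Nat.zero_le _) (Nat.zero_le _) (Nat.zero_le _) (Nat.zero_le _) (Nat.zero_le _) (Nat.zero_le _) (Nat.zero_le _) (Nat.zero_le _),
            by decide +kernel, units10 _ ⟨10, by decide +kernel, le_refl _⟩ ⟨30, by decide +kernel, by omega⟩ ⟨70, by decide +kernel, by omega⟩ ⟨90, by decide +kernel, by omega⟩⟩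
        by_cases c103 : 2 ≤ v 1
        · exact Or.inl ⟨(![0, 2, 0, 0, 0, 0, 0, 0, 1, 0] : Fin 10 → ℕ), all10 _ (Nat.zero_le _) (show 2 ≤ v 1 by omega) (Nat.zero_le _) (Nat.zero_le _) (Nat.zero_le _) (Nat.zero_le _) (Nat.zero_le _) (Nat.zero_le _) (show 1 ≤ v 8 by omega) (Nat.zero_le _),
            by decide +kernel, units10 _ ⟨10, by decide +kernel, le_refl _⟩ ⟨10, by decide +kernel, by omega⟩ ⟨20, by decide +kernel, by omega⟩ ⟨20, by decide +kernel, by omega⟩⟩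
        exfalso; omega
      by_cases c104 : 1 ≤ v 6
      · by_cases c105 : 1 ≤ v 5
        · exact Or.inr ⟨5, 6, 2, 9, by decide +kernel, Or.inl ⟨by decide, by omega, by omega⟩⟩
        by_cases c106 : 2 ≤ v 6
        · exact Or.inr ⟨6, 6, 3, 9, by decide +kernel, Or.inr ⟨rfl, by omega⟩⟩
        by_cases c107 : 2 ≤ v 8
        · exact Or.inr ⟨8, 8, 7, 9, by decide +kernel, Or.inr ⟨rfl, by omega⟩⟩
        by_cases c108 : 10 ≤ v 1
        · exact Or.inl ⟨(![0, 10, 0, 0, 0, 0, 0, 0, 0, 0] : Fin 10 → ℕ), all10 _ (Nat.zero_le _) (show 10 ≤ v 1 by omega) (Nat.zero_le _) (Nat.zero_le _) (Nat.zero_le _) (Nat.zero_le _) (Nat.zero_le _) (Nat.zero_le _) (Nat.zero_le _) (Nat.zero_le _),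
            by decide +kernel, units10 _ ⟨10, by decide +kernel, le_refl _⟩ ⟨30, by decide +kernel, by omega⟩ ⟨70, by decide +kernel, by omega⟩ ⟨90, by decide +kernel, by omega⟩⟩
        by_cases c109 : 2 ≤ v 1
        · exact Or.inl ⟨(![0, 2, 0, 0, 0, 0, 0, 0, 1, 0] : Fin 10 → ℕ), all10 _ (Nat.zero_le _) (show 2 ≤ v 1 by omega) (Nat.zero_le _) (Nat.zero_le _) (Nat.zero_le _) (Nat.zero_le _) (Nat.zero_le _) (Nat.zero_le _) (show 1 ≤ v 8 by omega) (Nat.zero_le _),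
            by decide +kernel, units10 _ ⟨10, by decide +kernel, le_refl _⟩ ⟨10, by decide +kernel, by omega⟩ ⟨20, by decide +kernel, by omega⟩ ⟨20, by decide +kernel, by omega⟩⟩
        exfalso; omega
      by_cases c110 : 1 ≤ v 5
      · exact Or.inr ⟨5, 8, 4, 9, by decide +kernel, Or.inl ⟨by decide, by omega, by omega⟩⟩
      by_cases c111 : 2 ≤ v 8
      · exact Or.inr ⟨8, 8, 7, 9, by decide +kernel, Or.inr ⟨rfl, by omega⟩⟩
      by_cases c112 : 10 ≤ v 1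
      · exact Or.inl ⟨(![0, 10, 0, 0, 0, 0, 0, 0, 0, 0] : Fin 10 → ℕ), all10 _ (Nat.zero_le _) (show 10 ≤ v 1 by omega) (Nat.zero_le _) (Nat.zero_le _) (Nat.zero_le _) (Nat.zero_le _) (Nat.zero_le _) (Nat.zero_le _) (Nat.zero_le _) (Nat.zero_le _),
          by decide +kernel, units10 _ ⟨10, by decide +kernel, le_refl _⟩ ⟨30, by decide +kernel, by omega⟩ ⟨70, by decide +kernel, by omega⟩ ⟨90, by decide +kernel, by omega⟩⟩
      by_cases c113 : 2 ≤ v 1
      · exact Or.inl ⟨(![0, 2, 0, 0, 0, 0, 0, 0, 1, 0] : Fin 10 → ℕ), all10 _ (Nat.zero_le _) (show 2 ≤ v 1 by omega) (Nat.zero_le _) (Nat.zero_le _) (Nat.zero_le _) (Nat.zero_le _) (Nat.zero_le _) (Nat.zero_le _) (show 1 ≤ v 8 by omega) (Nat.zero_le _),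
          by decide +kernel, units10 _ ⟨10, by decide +kernel, le_refl _⟩ ⟨10, by decide +kernel, by omega⟩ ⟨20, by decide +kernel, by omega⟩ ⟨20, by decide +kernel, by omega⟩⟩
      exfalso; omega
    by_cases c114 : 1 ≤ v 3
    · by_cases c115 : 1 ≤ v 7
      · exact Or.inl ⟨(![0, 0, 0, 1, 0, 0, 0, 1, 0, 0] : Fin 10 → ℕ), all10 _ (Nat.zero_le _) (Nat.zero_le _) (Nat.zero_le _) (show 1 ≤ v 3 by omega) (Nat.zero_le _) (Nat.zero_le _) (Nat.zero_le _) (show 1 ≤ v 7 by omega) (Nat.zero_le _) (Nat.zero_le _),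
          by decide +kernel, units10 _ ⟨10, by decide +kernel, le_refl _⟩ ⟨10, by decide +kernel, by omega⟩ ⟨10, by decide +kernel, by omega⟩ ⟨10, by decide +kernel, by omega⟩⟩
      by_cases c116 : 1 ≤ v 4
      · by_cases c117 : 1 ≤ v 6
        · exact Or.inl ⟨(![0, 0, 0, 0, 1, 0, 1, 0, 0, 0] : Fin 10 → ℕ), all10 _ (Nat.zero_le _) (Nat.zero_le _) (Nat.zero_le _) (Nat.zero_le _) (show 1 ≤ v 4 by omega) (Nat.zero_le _) (show 1 ≤ v 6 by omega) (Nat.zero_le _) (Nat.zero_le _) (Nat.zero_le _),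
            by decide +kernel, units10 _ ⟨10, by decide +kernel, le_refl _⟩ ⟨10, by decide +kernel, by omega⟩ ⟨10, by decide +kernel, by omega⟩ ⟨10, by decide +kernel, by omega⟩⟩
        by_cases c118 : 1 ≤ v 5
        · exact Or.inr ⟨4, 5, 1, 8, by decide +kernel, Or.inl ⟨by decide, by omega, by omega⟩⟩
        by_cases c119 : 2 ≤ v 4
        · exact Or.inr ⟨4, 4, 1, 7, by decide +kernel, Or.inr ⟨rfl, by omega⟩⟩
        by_cases c120 : 3 ≤ v 3
        · exact Or.inl ⟨(![0, 1, 0, 3, 0, 0, 0, 0, 0, 0] : Fin 10 → ℕ), all10 _ (Nat.zero_le _) (show 1 ≤ v 1 by omega) (Nat.zero_le _) (show 3 ≤ v 3 by omega) (Nat.zero_le _) (Nat.zero_le _) (Nat.zero_le _) (Nat.zero_le _) (Nat.zero_le _) (Nat.zero_le _),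
            by decide +kernel, units10 _ ⟨10, by decide +kernel, le_refl _⟩ ⟨30, by decide +kernel, by omega⟩ ⟨10, by decide +kernel, by omega⟩ ⟨30, by decide +kernel, by omega⟩⟩
        by_cases c121 : 7 ≤ v 1
        · exact Or.inl ⟨(![0, 7, 0, 1, 0, 0, 0, 0, 0, 0] : Fin 10 → ℕ), all10 _ (Nat.zero_le _) (show 7 ≤ v 1 by omega) (Nat.zero_le _) (show 1 ≤ v 3 by omega) (Nat.zero_le _) (Nat.zero_le _) (Nat.zero_le _) (Nat.zero_le _) (Nat.zero_le _) (Nat.zero_le _),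
            by decide +kernel, units10 _ ⟨10, by decide +kernel, le_refl _⟩ ⟨30, by decide +kernel, by omega⟩ ⟨50, by decide +kernel, by omega⟩ ⟨70, by decide +kernel, by omega⟩⟩
        by_cases c122 : 2 ≤ v 3
        · exfalso; first | omega | (rcases (by omega : v 1 = 1 ∨ v 1 = 2 ∨ v 1 = 3 ∨ v 1 = 4 ∨ v 1 = 5 ∨ v 1 = 6) with q1 | q1 | q1 | q1 | q1 | q1 <;> omega)
        by_cases c123 : 3 ≤ v 1
        · exact Or.inl ⟨(![0, 3, 0, 1, 1, 0, 0, 0, 0, 0] : Fin 10 → ℕ), all10 _ (Nat.zero_le _) (show 3 ≤ v 1 by omega) (Nat.zero_le _) (show 1 ≤ v 3 by omega) (show 1 ≤ v 4 by omega) (Nat.zero_le _) (Nat.zero_le _) (Nat.zero_le _) (Nat.zero_le _) (Nat.zero_le _),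
            by decide +kernel, units10 _ ⟨10, by decide +kernel, le_refl _⟩ ⟨20, by decide +kernel, by omega⟩ ⟨30, by decide +kernel, by omega⟩ ⟨40, by decide +kernel, by omega⟩⟩
        exfalso; first | omega | (rcases (by omega : v 1 = 1 ∨ v 1 = 2) with q1 | q1 <;> omega)
      by_cases c124 : 1 ≤ v 6
      · by_cases c125 : 1 ≤ v 5
        · exact Or.inr ⟨5, 6, 2, 9, by decide +kernel, Or.inl ⟨by decide, by omega, by omega⟩⟩
        by_cases c126 : 2 ≤ v 6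
        · exact Or.inr ⟨6, 6, 3, 9, by decide +kernel, Or.inr ⟨rfl, by omega⟩⟩
        by_cases c127 : 3 ≤ v 3
        · exact Or.inl ⟨(![0, 1, 0, 3, 0, 0, 0, 0, 0, 0] : Fin 10 → ℕ), all10 _ (Nat.zero_le _) (show 1 ≤ v 1 by omega) (Nat.zero_le _) (show 3 ≤ v 3 by omega) (Nat.zero_le _) (Nat.zero_le _) (Nat.zero_le _) (Nat.zero_le _) (Nat.zero_le _) (Nat.zero_le _),
            by decide +kernel, units10 _ ⟨10, by decide +kernel, le_refl _⟩ ⟨30, by decide +kernel, by omega⟩ ⟨10, by decide +kernel, by omega⟩ ⟨30, by decide +kernel, by omega⟩⟩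
        by_cases c128 : 7 ≤ v 1
        · exact Or.inl ⟨(![0, 7, 0, 1, 0, 0, 0, 0, 0, 0] : Fin 10 → ℕ), all10 _ (Nat.zero_le _) (show 7 ≤ v 1 by omega) (Nat.zero_le _) (show 1 ≤ v 3 by omega) (Nat.zero_le _) (Nat.zero_le _) (Nat.zero_le _) (Nat.zero_le _) (Nat.zero_le _) (Nat.zero_le _),
            by decide +kernel, units10 _ ⟨10, by decide +kernel, le_refl _⟩ ⟨30, by decide +kernel, by omega⟩ ⟨50, by decide +kernel, by omega⟩ ⟨70, by decide +kernel, by omega⟩⟩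
        exact Or.inl ⟨(![0, 1, 0, 1, 0, 0, 1, 0, 0, 0] : Fin 10 → ℕ), all10 _ (Nat.zero_le _) (show 1 ≤ v 1 by omega) (Nat.zero_le _) (show 1 ≤ v 3 by omega) (Nat.zero_le _) (Nat.zero_le _) (show 1 ≤ v 6 by omega) (Nat.zero_le _) (Nat.zero_le _) (Nat.zero_le _),
          by decide +kernel, units10 _ ⟨10, by decide +kernel, le_refl _⟩ ⟨20, by decide +kernel, by omega⟩ ⟨10, by decide +kernel, by omega⟩ ⟨20, by decide +kernel, by omega⟩⟩
      by_cases c129 : 1 ≤ v 5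
      · by_cases c130 : 2 ≤ v 5
        · exact Or.inl ⟨(![0, 0, 0, 0, 0, 2, 0, 0, 0, 0] : Fin 10 → ℕ), all10 _ (Nat.zero_le _) (Nat.zero_le _) (Nat.zero_le _) (Nat.zero_le _) (Nat.zero_le _) (show 2 ≤ v 5 by omega) (Nat.zero_le _) (Nat.zero_le _) (Nat.zero_le _) (Nat.zero_le _),
            by decide +kernel, units10 _ ⟨10, by decide +kernel, le_refl _⟩ ⟨10, by decide +kernel, by omega⟩ ⟨10, by decide +kernel, by omega⟩ ⟨10, by decide +kernel, by omega⟩⟩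
        by_cases c131 : 3 ≤ v 3
        · exact Or.inl ⟨(![0, 1, 0, 3, 0, 0, 0, 0, 0, 0] : Fin 10 → ℕ), all10 _ (Nat.zero_le _) (show 1 ≤ v 1 by omega) (Nat.zero_le _) (show 3 ≤ v 3 by omega) (Nat.zero_le _) (Nat.zero_le _) (Nat.zero_le _) (Nat.zero_le _) (Nat.zero_le _) (Nat.zero_le _),
            by decide +kernel, units10 _ ⟨10, by decide +kernel, le_refl _⟩ ⟨30, by decide +kernel, by omega⟩ ⟨10, by decide +kernel, by omega⟩ ⟨30, by decide +kernel, by omega⟩⟩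
        by_cases c132 : 7 ≤ v 1
        · exact Or.inl ⟨(![0, 7, 0, 1, 0, 0, 0, 0, 0, 0] : Fin 10 → ℕ), all10 _ (Nat.zero_le _) (show 7 ≤ v 1 by omega) (Nat.zero_le _) (show 1 ≤ v 3 by omega) (Nat.zero_le _) (Nat.zero_le _) (Nat.zero_le _) (Nat.zero_le _) (Nat.zero_le _) (Nat.zero_le _),
            by decide +kernel, units10 _ ⟨10, by decide +kernel, le_refl _⟩ ⟨30, by decide +kernel, by omega⟩ ⟨50, by decide +kernel, by omega⟩ ⟨70, by decide +kernel, by omega⟩⟩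
        by_cases c133 : 2 ≤ v 1
        · exact Or.inl ⟨(![0, 2, 0, 1, 0, 1, 0, 0, 0, 0] : Fin 10 → ℕ), all10 _ (Nat.zero_le _) (show 2 ≤ v 1 by omega) (Nat.zero_le _) (show 1 ≤ v 3 by omega) (Nat.zero_le _) (show 1 ≤ v 5 by omega) (Nat.zero_le _) (Nat.zero_le _) (Nat.zero_le _) (Nat.zero_le _),
            by decide +kernel, units10 _ ⟨10, by decide +kernel, le_refl _⟩ ⟨20, by decide +kernel, by omega⟩ ⟨20, by decide +kernel, by omega⟩ ⟨30, by decide +kernel, by omega⟩⟩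
        exfalso; first | omega | (rcases (by omega : v 3 = 1 ∨ v 3 = 2) with q3 | q3 <;> omega)
      by_cases c134 : 3 ≤ v 3
      · exact Or.inl ⟨(![0, 1, 0, 3, 0, 0, 0, 0, 0, 0] : Fin 10 → ℕ), all10 _ (Nat.zero_le _) (show 1 ≤ v 1 by omega) (Nat.zero_le _) (show 3 ≤ v 3 by omega) (Nat.zero_le _) (Nat.zero_le _) (Nat.zero_le _) (Nat.zero_le _) (Nat.zero_le _) (Nat.zero_le _),
          by decide +kernel, units10 _ ⟨10, by decide +kernel, le_refl _⟩ ⟨30, by decide +kernel, by omega⟩ ⟨10, by decide +kernel, by omega⟩ ⟨30, by decide +kernel, by omega⟩⟩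
      by_cases c135 : 7 ≤ v 1
      · exact Or.inl ⟨(![0, 7, 0, 1, 0, 0, 0, 0, 0, 0] : Fin 10 → ℕ), all10 _ (Nat.zero_le _) (show 7 ≤ v 1 by omega) (Nat.zero_le _) (show 1 ≤ v 3 by omega) (Nat.zero_le _) (Nat.zero_le _) (Nat.zero_le _) (Nat.zero_le _) (Nat.zero_le _) (Nat.zero_le _),
          by decide +kernel, units10 _ ⟨10, by decide +kernel, le_refl _⟩ ⟨30, by decide +kernel, by omega⟩ ⟨50, by decide +kernel, by omega⟩ ⟨70, by decide +kernel, by omega⟩⟩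
      by_cases c136 : 4 ≤ v 1
      · by_cases c137 : 2 ≤ v 3
        · exact Or.inl ⟨(![0, 4, 0, 2, 0, 0, 0, 0, 0, 0] : Fin 10 → ℕ), all10 _ (Nat.zero_le _) (show 4 ≤ v 1 by omega) (Nat.zero_le _) (show 2 ≤ v 3 by omega) (Nat.zero_le _) (Nat.zero_le _) (Nat.zero_le _) (Nat.zero_le _) (Nat.zero_le _) (Nat.zero_le _),
            by decide +kernel, units10 _ ⟨10, by decide +kernel, le_refl _⟩ ⟨30, by decide +kernel, by omega⟩ ⟨30, by decide +kernel, by omega⟩ ⟨50, by decide +kernel, by omega⟩⟩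
        exfalso; first | omega | (rcases (by omega : v 1 = 4 ∨ v 1 = 5 ∨ v 1 = 6) with q1 | q1 | q1 <;> omega)
      exfalso; first | omega | (rcases (by omega : v 1 = 1 ∨ v 1 = 2 ∨ v 1 = 3) with q1 | q1 | q1 <;> rcases (by omega : v 3 = 1 ∨ v 3 = 2) with q3 | q3 <;> omega)
    by_cases c138 : 1 ≤ v 7
    · by_cases c139 : 1 ≤ v 4
      · by_cases c140 : 1 ≤ v 6
        · exact Or.inl ⟨(![0, 0, 0, 0, 1, 0, 1, 0, 0, 0] : Fin 10 → ℕ), all10 _ (Nat.zero_le _) (Nat.zero_le _) (Nat.zero_le _) (Nat.zero_le _) (show 1 ≤ v 4 by omega) (Nat.zero_le _) (show 1 ≤ v 6 by omega) (Nat.zero_le _) (Nat.zero_le _) (Nat.zero_le _),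
            by decide +kernel, units10 _ ⟨10, by decide +kernel, le_refl _⟩ ⟨10, by decide +kernel, by omega⟩ ⟨10, by decide +kernel, by omega⟩ ⟨10, by decide +kernel, by omega⟩⟩
        by_cases c141 : 1 ≤ v 5
        · exact Or.inr ⟨4, 5, 1, 8, by decide +kernel, Or.inl ⟨by decide, by omega, by omega⟩⟩
        by_cases c142 : 2 ≤ v 4
        · exact Or.inr ⟨4, 4, 1, 7, by decide +kernel, Or.inr ⟨rfl, by omega⟩⟩
        by_cases c143 : 3 ≤ v 1
        · exact Or.inl ⟨(![0, 3, 0, 0, 0, 0, 0, 1, 0, 0] : Fin 10 → ℕ), all10 _ (Nat.zero_le _) (show 3 ≤ v 1 by omega) (Nat.zero_le _) (Nat.zero_le _) (Nat.zero_le _) (Nat.zero_le _) (Nat.zero_le _) (show 1 ≤ v 7 by omega) (Nat.zero_le _) (Nat.zero_le _),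
            by decide +kernel, units10 _ ⟨10, by decide +kernel, le_refl _⟩ ⟨10, by decide +kernel, by omega⟩ ⟨30, by decide +kernel, by omega⟩ ⟨30, by decide +kernel, by omega⟩⟩
        exfalso; first | omega | (rcases (by omega : v 1 = 1 ∨ v 1 = 2) with q1 | q1 <;> omega)
      by_cases c144 : 1 ≤ v 6
      · by_cases c145 : 1 ≤ v 5
        · exact Or.inr ⟨5, 6, 2, 9, by decide +kernel, Or.inl ⟨by decide, by omega, by omega⟩⟩
        by_cases c146 : 2 ≤ v 6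
        · exact Or.inr ⟨6, 6, 3, 9, by decide +kernel, Or.inr ⟨rfl, by omega⟩⟩
        by_cases c147 : 3 ≤ v 1
        · exact Or.inl ⟨(![0, 3, 0, 0, 0, 0, 0, 1, 0, 0] : Fin 10 → ℕ), all10 _ (Nat.zero_le _) (show 3 ≤ v 1 by omega) (Nat.zero_le _) (Nat.zero_le _) (Nat.zero_le _) (Nat.zero_le _) (Nat.zero_le _) (show 1 ≤ v 7 by omega) (Nat.zero_le _) (Nat.zero_le _),
            by decide +kernel, units10 _ ⟨10, by decide +kernel, le_refl _⟩ ⟨10, by decide +kernel, by omega⟩ ⟨30, by decide +kernel, by omega⟩ ⟨30, by decide +kernel, by omega⟩⟩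
        exfalso; first | omega | (rcases (by omega : v 1 = 1 ∨ v 1 = 2) with q1 | q1 <;> omega)
      by_cases c148 : 1 ≤ v 5
      · by_cases c149 : 2 ≤ v 5
        · exact Or.inl ⟨(![0, 0, 0, 0, 0, 2, 0, 0, 0, 0] : Fin 10 → ℕ), all10 _ (Nat.zero_le _) (Nat.zero_le _) (Nat.zero_le _) (Nat.zero_le _) (Nat.zero_le _) (show 2 ≤ v 5 by omega) (Nat.zero_le _) (Nat.zero_le _) (Nat.zero_le _) (Nat.zero_le _),
            by decide +kernel, units10 _ ⟨10, by decide +kernel, le_refl _⟩ ⟨10, by decide +kernel, by omega⟩ ⟨10, by decide +kernel, by omega⟩ ⟨10, by decide +kernel, by omega⟩⟩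
        by_cases c150 : 3 ≤ v 1
        · exact Or.inl ⟨(![0, 3, 0, 0, 0, 0, 0, 1, 0, 0] : Fin 10 → ℕ), all10 _ (Nat.zero_le _) (show 3 ≤ v 1 by omega) (Nat.zero_le _) (Nat.zero_le _) (Nat.zero_le _) (Nat.zero_le _) (Nat.zero_le _) (show 1 ≤ v 7 by omega) (Nat.zero_le _) (Nat.zero_le _),
            by decide +kernel, units10 _ ⟨10, by decide +kernel, le_refl _⟩ ⟨10, by decide +kernel, by omega⟩ ⟨30, by decide +kernel, by omega⟩ ⟨30, by decide +kernel, by omega⟩⟩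
        exfalso; first | omega | (rcases (by omega : v 1 = 1 ∨ v 1 = 2) with q1 | q1 <;> omega)
      by_cases c151 : 3 ≤ v 1
      · exact Or.inl ⟨(![0, 3, 0, 0, 0, 0, 0, 1, 0, 0] : Fin 10 → ℕ), all10 _ (Nat.zero_le _) (show 3 ≤ v 1 by omega) (Nat.zero_le _) (Nat.zero_le _) (Nat.zero_le _) (Nat.zero_le _) (Nat.zero_le _) (show 1 ≤ v 7 by omega) (Nat.zero_le _) (Nat.zero_le _),
          by decide +kernel, units10 _ ⟨10, by decide +kernel, le_refl _⟩ ⟨10, by decide +kernel, by omega⟩ ⟨30, by decide +kernel, by omega⟩ ⟨30, by decide +kernel, by omega⟩⟩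
      exfalso; first | omega | (rcases (by omega : v 1 = 1 ∨ v 1 = 2) with q1 | q1 <;> omega)
    by_cases c152 : 1 ≤ v 4
    · by_cases c153 : 1 ≤ v 6
      · exact Or.inl ⟨(![0, 0, 0, 0, 1, 0, 1, 0, 0, 0] : Fin 10 → ℕ), all10 _ (Nat.zero_le _) (Nat.zero_le _) (Nat.zero_le _) (Nat.zero_le _) (show 1 ≤ v 4 by omega) (Nat.zero_le _) (show 1 ≤ v 6 by omega) (Nat.zero_le _) (Nat.zero_le _) (Nat.zero_le _),
          by decide +kernel, units10 _ ⟨10, by decide +kernel, le_refl _⟩ ⟨10, by decide +kernel, by omega⟩ ⟨10, by decide +kernel, by omega⟩ ⟨10, by decide +kernel, by omega⟩⟩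
      by_cases c154 : 1 ≤ v 5
      · exact Or.inr ⟨4, 5, 1, 8, by decide +kernel, Or.inl ⟨by decide, by omega, by omega⟩⟩
      by_cases c155 : 2 ≤ v 4
      · exact Or.inr ⟨4, 4, 1, 7, by decide +kernel, Or.inr ⟨rfl, by omega⟩⟩
      by_cases c156 : 10 ≤ v 1
      · exact Or.inl ⟨(![0, 10, 0, 0, 0, 0, 0, 0, 0, 0] : Fin 10 → ℕ), all10 _ (Nat.zero_le _) (show 10 ≤ v 1 by omega) (Nat.zero_le _) (Nat.zero_le _) (Nat.zero_le _) (Nat.zero_le _) (Nat.zero_le _) (Nat.zero_le _) (Nat.zero_le _) (Nat.zero_le _),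
          by decide +kernel, units10 _ ⟨10, by decide +kernel, le_refl _⟩ ⟨30, by decide +kernel, by omega⟩ ⟨70, by decide +kernel, by omega⟩ ⟨90, by decide +kernel, by omega⟩⟩
      by_cases c157 : 6 ≤ v 1
      · exact Or.inl ⟨(![0, 6, 0, 0, 1, 0, 0, 0, 0, 0] : Fin 10 → ℕ), all10 _ (Nat.zero_le _) (show 6 ≤ v 1 by omega) (Nat.zero_le _) (Nat.zero_le _) (show 1 ≤ v 4 by omega) (Nat.zero_le _) (Nat.zero_le _) (Nat.zero_le _) (Nat.zero_le _) (Nat.zero_le _),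
          by decide +kernel, units10 _ ⟨10, by decide +kernel, le_refl _⟩ ⟨20, by decide +kernel, by omega⟩ ⟨50, by decide +kernel, by omega⟩ ⟨60, by decide +kernel, by omega⟩⟩
      exfalso; first | omega | (rcases (by omega : v 1 = 1 ∨ v 1 = 2 ∨ v 1 = 3 ∨ v 1 = 4 ∨ v 1 = 5) with q1 | q1 | q1 | q1 | q1 <;> omega)
    by_cases c158 : 1 ≤ v 6
    · by_cases c159 : 1 ≤ v 5
      · exact Or.inr ⟨5, 6, 2, 9, by decide +kernel, Or.inl ⟨by decide, by omega, by omega⟩⟩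
      by_cases c160 : 2 ≤ v 6
      · exact Or.inr ⟨6, 6, 3, 9, by decide +kernel, Or.inr ⟨rfl, by omega⟩⟩
      by_cases c161 : 10 ≤ v 1
      · exact Or.inl ⟨(![0, 10, 0, 0, 0, 0, 0, 0, 0, 0] : Fin 10 → ℕ), all10 _ (Nat.zero_le _) (show 10 ≤ v 1 by omega) (Nat.zero_le _) (Nat.zero_le _) (Nat.zero_le _) (Nat.zero_le _) (Nat.zero_le _) (Nat.zero_le _) (Nat.zero_le _) (Nat.zero_le _),
          by decide +kernel, units10 _ ⟨10, by decide +kernel, le_refl _⟩ ⟨30, by decide +kernel, by omega⟩ ⟨70, by decide +kernel, by omega⟩ ⟨90, by decide +kernel, by omega⟩⟩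
      by_cases c162 : 4 ≤ v 1
      · exact Or.inl ⟨(![0, 4, 0, 0, 0, 0, 1, 0, 0, 0] : Fin 10 → ℕ), all10 _ (Nat.zero_le _) (show 4 ≤ v 1 by omega) (Nat.zero_le _) (Nat.zero_le _) (Nat.zero_le _) (Nat.zero_le _) (show 1 ≤ v 6 by omega) (Nat.zero_le _) (Nat.zero_le _) (Nat.zero_le _),
          by decide +kernel, units10 _ ⟨10, by decide +kernel, le_refl _⟩ ⟨20, by decide +kernel, by omega⟩ ⟨30, by decide +kernel, by omega⟩ ⟨40, by decide +kernel, by omega⟩⟩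
      exfalso; first | omega | (rcases (by omega : v 1 = 1 ∨ v 1 = 2 ∨ v 1 = 3) with q1 | q1 | q1 <;> omega)
    by_cases c163 : 1 ≤ v 5
    · by_cases c164 : 2 ≤ v 5
      · exact Or.inl ⟨(![0, 0, 0, 0, 0, 2, 0, 0, 0, 0] : Fin 10 → ℕ), all10 _ (Nat.zero_le _) (Nat.zero_le _) (Nat.zero_le _) (Nat.zero_le _) (Nat.zero_le _) (show 2 ≤ v 5 by omega) (Nat.zero_le _) (Nat.zero_le _) (Nat.zero_le _) (Nat.zero_le _),
          by decide +kernel, units10 _ ⟨10, by decide +kernel, le_refl _⟩ ⟨10, by decide +kernel, by omega⟩ ⟨10, by decide +kernel, by omega⟩ ⟨10, by decide +kernel, by omega⟩⟩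
      by_cases c165 : 10 ≤ v 1
      · exact Or.inl ⟨(![0, 10, 0, 0, 0, 0, 0, 0, 0, 0] : Fin 10 → ℕ), all10 _ (Nat.zero_le _) (show 10 ≤ v 1 by omega) (Nat.zero_le _) (Nat.zero_le _) (Nat.zero_le _) (Nat.zero_le _) (Nat.zero_le _) (Nat.zero_le _) (Nat.zero_le _) (Nat.zero_le _),
          by decide +kernel, units10 _ ⟨10, by decide +kernel, le_refl _⟩ ⟨30, by decide +kernel, by omega⟩ ⟨70, by decide +kernel, by omega⟩ ⟨90, by decide +kernel, by omega⟩⟩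
      by_cases c166 : 5 ≤ v 1
      · exact Or.inl ⟨(![0, 5, 0, 0, 0, 1, 0, 0, 0, 0] : Fin 10 → ℕ), all10 _ (Nat.zero_le _) (show 5 ≤ v 1 by omega) (Nat.zero_le _) (Nat.zero_le _) (Nat.zero_le _) (show 1 ≤ v 5 by omega) (Nat.zero_le _) (Nat.zero_le _) (Nat.zero_le _) (Nat.zero_le _),
          by decide +kernel, units10 _ ⟨10, by decide +kernel, le_refl _⟩ ⟨20, by decide +kernel, by omega⟩ ⟨40, by decide +kernel, by omega⟩ ⟨50, by decide +kernel, by omega⟩⟩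
      exfalso; first | omega | (rcases (by omega : v 1 = 1 ∨ v 1 = 2 ∨ v 1 = 3 ∨ v 1 = 4) with q1 | q1 | q1 | q1 <;> omega)
    by_cases c167 : 10 ≤ v 1
    · exact Or.inl ⟨(![0, 10, 0, 0, 0, 0, 0, 0, 0, 0] : Fin 10 → ℕ), all10 _ (Nat.zero_le _) (show 10 ≤ v 1 by omega) (Nat.zero_le _) (Nat.zero_le _) (Nat.zero_le _) (Nat.zero_le _) (Nat.zero_le _) (Nat.zero_le _) (Nat.zero_le _) (Nat.zero_le _),
        by decide +kernel, units10 _ ⟨10, by decide +kernel, le_refl _⟩ ⟨30, by decide +kernel, by omega⟩ ⟨70, by decide +kernel, by omega⟩ ⟨90, by decide +kernel, by omega⟩⟩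
    exfalso; first | omega | (rcases (by omega : v 1 = 1 ∨ v 1 = 2 ∨ v 1 = 3 ∨ v 1 = 4 ∨ v 1 = 5 ∨ v 1 = 6 ∨ v 1 = 7 ∨ v 1 = 8 ∨ v 1 = 9) with q1 | q1 | q1 | q1 | q1 | q1 | q1 | q1 | q1 <;> omega)
  by_cases c168 : 1 ≤ v 9
  · by_cases c169 : 1 ≤ v 2
    · by_cases c170 : 1 ≤ v 8
      · exact Or.inl ⟨(![0, 0, 1, 0, 0, 0, 0, 0, 1, 0] : Fin 10 → ℕ), all10 _ (Nat.zero_le _) (Nat.zero_le _) (show 1 ≤ v 2 by omega) (Nat.zero_le _) (Nat.zero_le _) (Nat.zero_le _) (Nat.zero_le _) (Nat.zero_le _) (show 1 ≤ v 8 by omega) (Nat.zero_le _),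
          by decide +kernel, units10 _ ⟨10, by decide +kernel, le_refl _⟩ ⟨10, by decide +kernel, by omega⟩ ⟨10, by decide +kernel, by omega⟩ ⟨10, by decide +kernel, by omega⟩⟩
      by_cases c171 : 1 ≤ v 3
      · by_cases c172 : 1 ≤ v 7
        · exact Or.inl ⟨(![0, 0, 0, 1, 0, 0, 0, 1, 0, 0] : Fin 10 → ℕ), all10 _ (Nat.zero_le _) (Nat.zero_le _) (Nat.zero_le _) (show 1 ≤ v 3 by omega) (Nat.zero_le _) (Nat.zero_le _) (Nat.zero_le _) (show 1 ≤ v 7 by omega) (Nat.zero_le _) (Nat.zero_le _),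
            by decide +kernel, units10 _ ⟨10, by decide +kernel, le_refl _⟩ ⟨10, by decide +kernel, by omega⟩ ⟨10, by decide +kernel, by omega⟩ ⟨10, by decide +kernel, by omega⟩⟩
        by_cases c173 : 1 ≤ v 4
        · by_cases c174 : 1 ≤ v 6
          · exact Or.inl ⟨(![0, 0, 0, 0, 1, 0, 1, 0, 0, 0] : Fin 10 → ℕ), all10 _ (Nat.zero_le _) (Nat.zero_le _) (Nat.zero_le _) (Nat.zero_le _) (show 1 ≤ v 4 by omega) (Nat.zero_le _) (show 1 ≤ v 6 by omega) (Nat.zero_le _) (Nat.zero_le _) (Nat.zero_le _),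
              by decide +kernel, units10 _ ⟨10, by decide +kernel, le_refl _⟩ ⟨10, by decide +kernel, by omega⟩ ⟨10, by decide +kernel, by omega⟩ ⟨10, by decide +kernel, by omega⟩⟩
          by_cases c175 : 1 ≤ v 5
          · exact Or.inr ⟨2, 5, 1, 6, by decide +kernel, Or.inl ⟨by decide, by omega, by omega⟩⟩
          by_cases c176 : 2 ≤ v 2
          · exact Or.inr ⟨2, 2, 1, 3, by decide +kernel, Or.inr ⟨rfl, by omega⟩⟩
          by_cases c177 : 2 ≤ v 4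
          · exact Or.inr ⟨4, 4, 1, 7, by decide +kernel, Or.inr ⟨rfl, by omega⟩⟩
          exfalso; omega
        by_cases c178 : 1 ≤ v 6
        · by_cases c179 : 1 ≤ v 5
          · exact Or.inr ⟨2, 5, 1, 6, by decide +kernel, Or.inl ⟨by decide, by omega, by omega⟩⟩
          by_cases c180 : 2 ≤ v 2
          · exact Or.inr ⟨2, 2, 1, 3, by decide +kernel, Or.inr ⟨rfl, by omega⟩⟩
          exfalso; omega
        by_cases c181 : 1 ≤ v 5
        · exact Or.inr ⟨2, 5, 1, 6, by decide +kernel, Or.inl ⟨by decide, by omega, by omega⟩⟩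
        by_cases c182 : 2 ≤ v 2
        · exact Or.inr ⟨2, 2, 1, 3, by decide +kernel, Or.inr ⟨rfl, by omega⟩⟩
        exfalso; omega
      by_cases c183 : 1 ≤ v 7
      · by_cases c184 : 1 ≤ v 4
        · by_cases c185 : 1 ≤ v 6
          · exact Or.inl ⟨(![0, 0, 0, 0, 1, 0, 1, 0, 0, 0] : Fin 10 → ℕ), all10 _ (Nat.zero_le _) (Nat.zero_le _) (Nat.zero_le _) (Nat.zero_le _) (show 1 ≤ v 4 by omega) (Nat.zero_le _) (show 1 ≤ v 6 by omega) (Nat.zero_le _) (Nat.zero_le _) (Nat.zero_le _),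
              by decide +kernel, units10 _ ⟨10, by decide +kernel, le_refl _⟩ ⟨10, by decide +kernel, by omega⟩ ⟨10, by decide +kernel, by omega⟩ ⟨10, by decide +kernel, by omega⟩⟩
          by_cases c186 : 1 ≤ v 5
          · exact Or.inr ⟨2, 5, 1, 6, by decide +kernel, Or.inl ⟨by decide, by omega, by omega⟩⟩
          by_cases c187 : 2 ≤ v 2
          · exact Or.inr ⟨2, 2, 1, 3, by decide +kernel, Or.inr ⟨rfl, by omega⟩⟩
          exfalso; omega
        by_cases c188 : 1 ≤ v 6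
        · by_cases c189 : 1 ≤ v 5
          · exact Or.inr ⟨2, 5, 1, 6, by decide +kernel, Or.inl ⟨by decide, by omega, by omega⟩⟩
          by_cases c190 : 2 ≤ v 2
          · exact Or.inr ⟨2, 2, 1, 3, by decide +kernel, Or.inr ⟨rfl, by omega⟩⟩
          exfalso; omega
        by_cases c191 : 1 ≤ v 5
        · exact Or.inr ⟨2, 5, 1, 6, by decide +kernel, Or.inl ⟨by decide, by omega, by omega⟩⟩
        by_cases c192 : 2 ≤ v 2
        · exact Or.inr ⟨2, 2, 1, 3, by decide +kernel, Or.inr ⟨rfl, by omega⟩⟩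
        exfalso; omega
      by_cases c193 : 1 ≤ v 4
      · by_cases c194 : 1 ≤ v 6
        · exact Or.inl ⟨(![0, 0, 0, 0, 1, 0, 1, 0, 0, 0] : Fin 10 → ℕ), all10 _ (Nat.zero_le _) (Nat.zero_le _) (Nat.zero_le _) (Nat.zero_le _) (show 1 ≤ v 4 by omega) (Nat.zero_le _) (show 1 ≤ v 6 by omega) (Nat.zero_le _) (Nat.zero_le _) (Nat.zero_le _),
            by decide +kernel, units10 _ ⟨10, by decide +kernel, le_refl _⟩ ⟨10, by decide +kernel, by omega⟩ ⟨10, by decide +kernel, by omega⟩ ⟨10, by decide +kernel, by omega⟩⟩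
        by_cases c195 : 1 ≤ v 5
        · exact Or.inr ⟨2, 5, 1, 6, by decide +kernel, Or.inl ⟨by decide, by omega, by omega⟩⟩
        by_cases c196 : 2 ≤ v 2
        · exact Or.inr ⟨2, 2, 1, 3, by decide +kernel, Or.inr ⟨rfl, by omega⟩⟩
        exfalso; omega
      by_cases c197 : 1 ≤ v 6
      · by_cases c198 : 1 ≤ v 5
        · exact Or.inr ⟨2, 5, 1, 6, by decide +kernel, Or.inl ⟨by decide, by omega, by omega⟩⟩
        by_cases c199 : 2 ≤ v 2
        · exact Or.inr ⟨2, 2, 1, 3, by decide +kernel, Or.inr ⟨rfl, by omega⟩⟩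
        exfalso; omega
      by_cases c200 : 1 ≤ v 5
      · exact Or.inr ⟨2, 5, 1, 6, by decide +kernel, Or.inl ⟨by decide, by omega, by omega⟩⟩
      by_cases c201 : 2 ≤ v 2
      · exact Or.inr ⟨2, 2, 1, 3, by decide +kernel, Or.inr ⟨rfl, by omega⟩⟩
      exfalso; omega
    by_cases c202 : 1 ≤ v 8
    · by_cases c203 : 1 ≤ v 3
      · by_cases c204 : 1 ≤ v 7
        · exact Or.inl ⟨(![0, 0, 0, 1, 0, 0, 0, 1, 0, 0] : Fin 10 → ℕ), all10 _ (Nat.zero_le _) (Nat.zero_le _) (Nat.zero_le _) (show 1 ≤ v 3 by omega) (Nat.zero_le _) (Nat.zero_le _) (Nat.zero_le _) (show 1 ≤ v 7 by omega) (Nat.zero_le _) (Nat.zero_le _),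
            by decide +kernel, units10 _ ⟨10, by decide +kernel, le_refl _⟩ ⟨10, by decide +kernel, by omega⟩ ⟨10, by decide +kernel, by omega⟩ ⟨10, by decide +kernel, by omega⟩⟩
        by_cases c205 : 1 ≤ v 4
        · by_cases c206 : 1 ≤ v 6
          · exact Or.inl ⟨(![0, 0, 0, 0, 1, 0, 1, 0, 0, 0] : Fin 10 → ℕ), all10 _ (Nat.zero_le _) (Nat.zero_le _) (Nat.zero_le _) (Nat.zero_le _) (show 1 ≤ v 4 by omega) (Nat.zero_le _) (show 1 ≤ v 6 by omega) (Nat.zero_le _) (Nat.zero_le _) (Nat.zero_le _),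
              by decide +kernel, units10 _ ⟨10, by decide +kernel, le_refl _⟩ ⟨10, by decide +kernel, by omega⟩ ⟨10, by decide +kernel, by omega⟩ ⟨10, by decide +kernel, by omega⟩⟩
          by_cases c207 : 1 ≤ v 5
          · exact Or.inr ⟨4, 5, 1, 8, by decide +kernel, Or.inl ⟨by decide, by omega, by omega⟩⟩
          by_cases c208 : 2 ≤ v 4
          · exact Or.inr ⟨4, 4, 1, 7, by decide +kernel, Or.inr ⟨rfl, by omega⟩⟩
          exfalso; omega
        exfalso; omega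
      exfalso; omega
    by_cases c209 : 1 ≤ v 3
    · by_cases c210 : 1 ≤ v 7
      · exact Or.inl ⟨(![0, 0, 0, 1, 0, 0, 0, 1, 0, 0] : Fin 10 → ℕ), all10 _ (Nat.zero_le _) (Nat.zero_le _) (Nat.zero_le _) (show 1 ≤ v 3 by omega) (Nat.zero_le _) (Nat.zero_le _) (Nat.zero_le _) (show 1 ≤ v 7 by omega) (Nat.zero_le _) (Nat.zero_le _),
          by decide +kernel, units10 _ ⟨10, by decide +kernel, le_refl _⟩ ⟨10, by decide +kernel, by omega⟩ ⟨10, by decide +kernel, by omega⟩ ⟨10, by decide +kernel, by omega⟩⟩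
      by_cases c211 : 1 ≤ v 4
      · by_cases c212 : 1 ≤ v 6
        · exact Or.inl ⟨(![0, 0, 0, 0, 1, 0, 1, 0, 0, 0] : Fin 10 → ℕ), all10 _ (Nat.zero_le _) (Nat.zero_le _) (Nat.zero_le _) (Nat.zero_le _) (show 1 ≤ v 4 by omega) (Nat.zero_le _) (show 1 ≤ v 6 by omega) (Nat.zero_le _) (Nat.zero_le _) (Nat.zero_le _),
            by decide +kernel, units10 _ ⟨10, by decide +kernel, le_refl _⟩ ⟨10, by decide +kernel, by omega⟩ ⟨10, by decide +kernel, by omega⟩ ⟨10, by decide +kernel, by omega⟩⟩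
        by_cases c213 : 1 ≤ v 5
        · exact Or.inr ⟨4, 5, 1, 8, by decide +kernel, Or.inl ⟨by decide, by omega, by omega⟩⟩
        by_cases c214 : 2 ≤ v 4
        · exact Or.inr ⟨4, 4, 1, 7, by decide +kernel, Or.inr ⟨rfl, by omega⟩⟩
        exfalso; omega
      exfalso; omega
    exfalso; omega
  by_cases c215 : 1 ≤ v 2
  · by_cases c216 : 1 ≤ v 8
    · exact Or.inl ⟨(![0, 0, 1, 0, 0, 0, 0, 0, 1, 0] : Fin 10 → ℕ), all10 _ (Nat.zero_le _) (Nat.zero_le _) (show 1 ≤ v 2 by omega) (Nat.zero_le _) (Nat.zero_le _) (Nat.zero_le _) (Nat.zero_le _) (Nat.zero_le _) (show 1 ≤ v 8 by omega) (Nat.zero_le _),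
        by decide +kernel, units10 _ ⟨10, by decide +kernel, le_refl _⟩ ⟨10, by decide +kernel, by omega⟩ ⟨10, by decide +kernel, by omega⟩ ⟨10, by decide +kernel, by omega⟩⟩
    by_cases c217 : 1 ≤ v 3
    · by_cases c218 : 1 ≤ v 7
      · exact Or.inl ⟨(![0, 0, 0, 1, 0, 0, 0, 1, 0, 0] : Fin 10 → ℕ), all10 _ (Nat.zero_le _) (Nat.zero_le _) (Nat.zero_le _) (show 1 ≤ v 3 by omega) (Nat.zero_le _) (Nat.zero_le _) (Nat.zero_le _) (show 1 ≤ v 7 by omega) (Nat.zero_le _) (Nat.zero_le _),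
          by decide +kernel, units10 _ ⟨10, by decide +kernel, le_refl _⟩ ⟨10, by decide +kernel, by omega⟩ ⟨10, by decide +kernel, by omega⟩ ⟨10, by decide +kernel, by omega⟩⟩
      by_cases c219 : 1 ≤ v 4
      · by_cases c220 : 1 ≤ v 6
        · exact Or.inl ⟨(![0, 0, 0, 0, 1, 0, 1, 0, 0, 0] : Fin 10 → ℕ), all10 _ (Nat.zero_le _) (Nat.zero_le _) (Nat.zero_le _) (Nat.zero_le _) (show 1 ≤ v 4 by omega) (Nat.zero_le _) (show 1 ≤ v 6 by omega) (Nat.zero_le _) (Nat.zero_le _) (Nat.zero_le _),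
            by decide +kernel, units10 _ ⟨10, by decide +kernel, le_refl _⟩ ⟨10, by decide +kernel, by omega⟩ ⟨10, by decide +kernel, by omega⟩ ⟨10, by decide +kernel, by omega⟩⟩
        by_cases c221 : 1 ≤ v 5
        · exact Or.inr ⟨2, 5, 1, 6, by decide +kernel, Or.inl ⟨by decide, by omega, by omega⟩⟩
        by_cases c222 : 2 ≤ v 2
        · exact Or.inr ⟨2, 2, 1, 3, by decide +kernel, Or.inr ⟨rfl, by omega⟩⟩
        by_cases c223 : 2 ≤ v 4
        · exact Or.inr ⟨4, 4, 1, 7, by decide +kernel, Or.inr ⟨rfl, by omega⟩⟩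
        exfalso; omega
      by_cases c224 : 1 ≤ v 6
      · by_cases c225 : 1 ≤ v 5
        · exact Or.inr ⟨2, 5, 1, 6, by decide +kernel, Or.inl ⟨by decide, by omega, by omega⟩⟩
        by_cases c226 : 2 ≤ v 2
        · exact Or.inr ⟨2, 2, 1, 3, by decide +kernel, Or.inr ⟨rfl, by omega⟩⟩
        exfalso; omega
      by_cases c227 : 1 ≤ v 5
      · exact Or.inr ⟨2, 5, 1, 6, by decide +kernel, Or.inl ⟨by decide, by omega, by omega⟩⟩
      by_cases c228 : 2 ≤ v 2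
      · exact Or.inr ⟨2, 2, 1, 3, by decide +kernel, Or.inr ⟨rfl, by omega⟩⟩
      exfalso; omega
    by_cases c229 : 1 ≤ v 7
    · by_cases c230 : 1 ≤ v 4
      · by_cases c231 : 1 ≤ v 6
        · exact Or.inl ⟨(![0, 0, 0, 0, 1, 0, 1, 0, 0, 0] : Fin 10 → ℕ), all10 _ (Nat.zero_le _) (Nat.zero_le _) (Nat.zero_le _) (Nat.zero_le _) (show 1 ≤ v 4 by omega) (Nat.zero_le _) (show 1 ≤ v 6 by omega) (Nat.zero_le _) (Nat.zero_le _) (Nat.zero_le _),
            by decide +kernel, units10 _ ⟨10, by decide +kernel, le_refl _⟩ ⟨10, by decide +kernel, by omega⟩ ⟨10, by decide +kernel, by omega⟩ ⟨10, by decide +kernel, by omega⟩⟩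
        by_cases c232 : 1 ≤ v 5
        · exact Or.inr ⟨2, 5, 1, 6, by decide +kernel, Or.inl ⟨by decide, by omega, by omega⟩⟩
        by_cases c233 : 2 ≤ v 2
        · exact Or.inr ⟨2, 2, 1, 3, by decide +kernel, Or.inr ⟨rfl, by omega⟩⟩
        exfalso; omega
      by_cases c234 : 1 ≤ v 6
      · by_cases c235 : 1 ≤ v 5
        · exact Or.inr ⟨2, 5, 1, 6, by decide +kernel, Or.inl ⟨by decide, by omega, by omega⟩⟩
        by_cases c236 : 2 ≤ v 2
        · exact Or.inr ⟨2, 2, 1, 3, by decide +kernel, Or.inr ⟨rfl, by omega⟩⟩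
        exfalso; omega
      by_cases c237 : 1 ≤ v 5
      · exact Or.inr ⟨2, 5, 1, 6, by decide +kernel, Or.inl ⟨by decide, by omega, by omega⟩⟩
      by_cases c238 : 2 ≤ v 2
      · exact Or.inr ⟨2, 2, 1, 3, by decide +kernel, Or.inr ⟨rfl, by omega⟩⟩
      exfalso; omega
    by_cases c239 : 1 ≤ v 4
    · by_cases c240 : 1 ≤ v 6
      · exact Or.inl ⟨(![0, 0, 0, 0, 1, 0, 1, 0, 0, 0] : Fin 10 → ℕ), all10 _ (Nat.zero_le _) (Nat.zero_le _) (Nat.zero_le _) (Nat.zero_le _) (show 1 ≤ v 4 by omega) (Nat.zero_le _) (show 1 ≤ v 6 by omega) (Nat.zero_le _) (Nat.zero_le _) (Nat.zero_le _),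
          by decide +kernel, units10 _ ⟨10, by decide +kernel, le_refl _⟩ ⟨10, by decide +kernel, by omega⟩ ⟨10, by decide +kernel, by omega⟩ ⟨10, by decide +kernel, by omega⟩⟩
      by_cases c241 : 1 ≤ v 5
      · exact Or.inr ⟨2, 5, 1, 6, by decide +kernel, Or.inl ⟨by decide, by omega, by omega⟩⟩
      by_cases c242 : 2 ≤ v 2
      · exact Or.inr ⟨2, 2, 1, 3, by decide +kernel, Or.inr ⟨rfl, by omega⟩⟩
      by_cases c243 : 2 ≤ v 4
      · exact Or.inr ⟨4, 4, 1, 7, by decide +kernel, Or.inr ⟨rfl, by omega⟩⟩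
      exfalso; omega
    by_cases c244 : 1 ≤ v 6
    · by_cases c245 : 1 ≤ v 5
      · exact Or.inr ⟨2, 5, 1, 6, by decide +kernel, Or.inl ⟨by decide, by omega, by omega⟩⟩
      by_cases c246 : 2 ≤ v 2
      · exact Or.inr ⟨2, 2, 1, 3, by decide +kernel, Or.inr ⟨rfl, by omega⟩⟩
      exfalso; omega
    by_cases c247 : 1 ≤ v 5
    · exact Or.inr ⟨2, 5, 1, 6, by decide +kernel, Or.inl ⟨by decide, by omega, by omega⟩⟩
    by_cases c248 : 2 ≤ v 2
    · exact Or.inr ⟨2, 2, 1, 3, by decide +kernel, Or.inr ⟨rfl, by omega⟩⟩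
    exfalso; omega
  by_cases c249 : 1 ≤ v 8
  · by_cases c250 : 1 ≤ v 3
    · by_cases c251 : 1 ≤ v 7
      · exact Or.inl ⟨(![0, 0, 0, 1, 0, 0, 0, 1, 0, 0] : Fin 10 → ℕ), all10 _ (Nat.zero_le _) (Nat.zero_le _) (Nat.zero_le _) (show 1 ≤ v 3 by omega) (Nat.zero_le _) (Nat.zero_le _) (Nat.zero_le _) (show 1 ≤ v 7 by omega) (Nat.zero_le _) (Nat.zero_le _),
          by decide +kernel, units10 _ ⟨10, by decide +kernel, le_refl _⟩ ⟨10, by decide +kernel, by omega⟩ ⟨10, by decide +kernel, by omega⟩ ⟨10, by decide +kernel, by omega⟩⟩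
      by_cases c252 : 1 ≤ v 4
      · by_cases c253 : 1 ≤ v 6
        · exact Or.inl ⟨(![0, 0, 0, 0, 1, 0, 1, 0, 0, 0] : Fin 10 → ℕ), all10 _ (Nat.zero_le _) (Nat.zero_le _) (Nat.zero_le _) (Nat.zero_le _) (show 1 ≤ v 4 by omega) (Nat.zero_le _) (show 1 ≤ v 6 by omega) (Nat.zero_le _) (Nat.zero_le _) (Nat.zero_le _),
            by decide +kernel, units10 _ ⟨10, by decide +kernel, le_refl _⟩ ⟨10, by decide +kernel, by omega⟩ ⟨10, by decide +kernel, by omega⟩ ⟨10, by decide +kernel, by omega⟩⟩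
        by_cases c254 : 1 ≤ v 5
        · exact Or.inr ⟨4, 5, 1, 8, by decide +kernel, Or.inl ⟨by decide, by omega, by omega⟩⟩
        by_cases c255 : 2 ≤ v 4
        · exact Or.inr ⟨4, 4, 1, 7, by decide +kernel, Or.inr ⟨rfl, by omega⟩⟩
        exfalso; omega
      exfalso; omega
    exfalso; omega
  by_cases c256 : 1 ≤ v 3
  · by_cases c257 : 1 ≤ v 7
    · exact Or.inl ⟨(![0, 0, 0, 1, 0, 0, 0, 1, 0, 0] : Fin 10 → ℕ), all10 _ (Nat.zero_le _) (Nat.zero_le _) (Nat.zero_le _) (show 1 ≤ v 3 by omega) (Nat.zero_le _) (Nat.zero_le _) (Nat.zero_le _) (show 1 ≤ v 7 by omega) (Nat.zero_le _) (Nat.zero_le _),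
        by decide +kernel, units10 _ ⟨10, by decide +kernel, le_refl _⟩ ⟨10, by decide +kernel, by omega⟩ ⟨10, by decide +kernel, by omega⟩ ⟨10, by decide +kernel, by omega⟩⟩
    by_cases c258 : 1 ≤ v 4
    · by_cases c259 : 1 ≤ v 6
      · exact Or.inl ⟨(![0, 0, 0, 0, 1, 0, 1, 0, 0, 0] : Fin 10 → ℕ), all10 _ (Nat.zero_le _) (Nat.zero_le _) (Nat.zero_le _) (Nat.zero_le _) (show 1 ≤ v 4 by omega) (Nat.zero_le _) (show 1 ≤ v 6 by omega) (Nat.zero_le _) (Nat.zero_le _) (Nat.zero_le _),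
          by decide +kernel, units10 _ ⟨10, by decide +kernel, le_refl _⟩ ⟨10, by decide +kernel, by omega⟩ ⟨10, by decide +kernel, by omega⟩ ⟨10, by decide +kernel, by omega⟩⟩
      by_cases c260 : 1 ≤ v 5
      · exact Or.inr ⟨4, 5, 1, 8, by decide +kernel, Or.inl ⟨by decide, by omega, by omega⟩⟩
      by_cases c261 : 2 ≤ v 4
      · exact Or.inr ⟨4, 4, 1, 7, by decide +kernel, Or.inr ⟨rfl, by omega⟩⟩
      by_cases c262 : 2 ≤ v 3
      · exact Or.inl ⟨(![0, 0, 0, 2, 1, 0, 0, 0, 0, 0] : Fin 10 → ℕ), all10 _ (Nat.zero_le _) (Nat.zero_le _) (Nat.zero_le _) (show 2 ≤ v 3 by omega) (show 1 ≤ v 4 by omega) (Nat.zero_le _) (Nat.zero_le _) (Nat.zero_le _) (Nat.zero_le _) (Nat.zero_le _),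
          by decide +kernel, units10 _ ⟨10, by decide +kernel, le_refl _⟩ ⟨20, by decide +kernel, by omega⟩ ⟨10, by decide +kernel, by omega⟩ ⟨20, by decide +kernel, by omega⟩⟩
      exfalso; omega
    exfalso; omega
  by_cases c263 : 1 ≤ v 7
  · exfalso; omega
  by_cases c264 : 1 ≤ v 4
  · by_cases c265 : 1 ≤ v 6
    · exact Or.inl ⟨(![0, 0, 0, 0, 1, 0, 1, 0, 0, 0] : Fin 10 → ℕ), all10 _ (Nat.zero_le _) (Nat.zero_le _) (Nat.zero_le _) (Nat.zero_le _) (show 1 ≤ v 4 by omega) (Nat.zero_le _) (show 1 ≤ v 6 by omega) (Nat.zero_le _) (Nat.zero_le _) (Nat.zero_le _),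
        by decide +kernel, units10 _ ⟨10, by decide +kernel, le_refl _⟩ ⟨10, by decide +kernel, by omega⟩ ⟨10, by decide +kernel, by omega⟩ ⟨10, by decide +kernel, by omega⟩⟩
    exfalso; omega
  by_cases c266 : 1 ≤ v 6
  · exfalso; omega
  by_cases c267 : 1 ≤ v 5
  · by_cases c268 : 2 ≤ v 5
    · exact Or.inl ⟨(![0, 0, 0, 0, 0, 2, 0, 0, 0, 0] : Fin 10 → ℕ), all10 _ (Nat.zero_le _) (Nat.zero_le _) (Nat.zero_le _) (Nat.zero_le _) (Nat.zero_le _) (show 2 ≤ v 5 by omega) (Nat.zero_le _) (Nat.zero_le _) (Nat.zero_le _) (Nat.zero_le _),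
        by decide +kernel, units10 _ ⟨10, by decide +kernel, le_refl _⟩ ⟨10, by decide +kernel, by omega⟩ ⟨10, by decide +kernel, by omega⟩ ⟨10, by decide +kernel, by omega⟩⟩
    exfalso; omega
  exfalso; omega

lemma phi10_pos : ∀ x : ZMod 10, x ≠ 0 → 0 < phi10 x := by decide +kernel

end Pool.Agent.Q326.ZS
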