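import Pool.Agent.Q326.ZS.Swap

/-! The degree `2`. -/

set_option autoImplicit false

namespace Pool.Agent.Q326.ZS

lemma all2 (P : ZMod 2 → Prop) (h0 : P 0) (h1 : P 1) : ∀ x, P x := by
  have h : ∀ x : ZMod 2, x = 0 ∨ x = 1 := by decide +kernel
  intro x
  rcases h x with rfl | rfl <;> assumption

lemma units2 (P : ZMod 2 → Prop) (h1 : P 1) : ∀ x, IsUnit x → P x := by
  have h : ∀ x : ZMod 2, IsUnit x → x = 1 := by decide +kernel
  intro x hx
  rcases h x hx with rfl <;> assumption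

lemma sum2 (f : Fin 2 → ℕ) : ∑ x, f x = f 0 + f 1 := by
  simp only [Fin.sum_univ_castSucc, Finset.univ_eq_empty, Finset.sum_empty, zero_add]
  rfl

lemma s2_1 (v : ZMod 2 → ℕ) : S 1 v = v 0 * 0 + v 1 * 1 :=
  sum2 (fun x : ZMod 2 => v x * ((1 : ZMod 2) * x).val)

/-- the potential for degree `2` -/
def phi2 : ZMod 2 → ℕ := (![0, 1] : Fin 2 → ℕ)

set_option maxRecDepth 20000 in
theorem sstep2 : SStep 2 phi2 := by
  intro v h0 hx hd hL
  have hpos : 0 < v 1 := by
    by_contra hcon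
    obtain ⟨x, hx⟩ := hx
    apply hx
    clear hx hd hL
    revert x
    exact all2 _ h0 (by omega)
  have e1 := s2_1 v
  clear hL hx
  by_cases c0 : 1 ≤ v 1
  · by_cases c1 : 2 ≤ v 1
    · exact Or.inl ⟨(![0, 2] : Fin 2 → ℕ), all2 _ (Nat.zero_le _) (show 2 ≤ v 1 by omega),
        by decide +kernel, units2 _ ⟨2, by decide +kernel, le_refl _⟩⟩
    exfalso; omega
  exfalso; omega

lemma phi2_pos : ∀ x : ZMod 2, x ≠ 0 → 0 < phi2 x := by decide +kernel

end Pool.Agent.Q326.ZS
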