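import Pool.Agent.Q326.ZS.Swap

/-! The degree `3`. -/

set_option autoImplicit false

namespace Pool.Agent.Q326.ZS

lemma all3 (P : ZMod 3 → Prop) (h0 : P 0) (h1 : P 1) (h2 : P 2) : ∀ x, P x := by
  have h : ∀ x : ZMod 3, x = 0 ∨ x = 1 ∨ x = 2 := by decide +kernel
  intro x
  rcases h x with rfl | rfl | rfl <;> assumption

lemma units3 (P : ZMod 3 → Prop) (h1 : P 1) (h2 : P 2) : ∀ x, IsUnit x → P x := by
  have h : ∀ x : ZMod 3, IsUnit x → x = 1 ∨ x = 2 := by decide +kernel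
  intro x hx
  rcases h x hx with rfl | rfl <;> assumption

lemma sum3 (f : Fin 3 → ℕ) : ∑ x, f x = f 0 + f 1 + f 2 := by
  simp only [Fin.sum_univ_castSucc, Finset.univ_eq_empty, Finset.sum_empty, zero_add]
  rfl

lemma s3_1 (v : ZMod 3 → ℕ) : S 1 v = v 0 * 0 + v 1 * 1 + v 2 * 2 :=
  sum3 (fun x : ZMod 3 => v x * ((1 : ZMod 3) * x).val)

lemma s3_2 (v : ZMod 3 → ℕ) : S 2 v = v 0 * 0 + v 1 * 2 + v 2 * 1 :=
  sum3 (fun x : ZMod 3 => v x * ((2 : ZMod 3) * x).val)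

/-- the potential for degree `3` -/
def phi3 : ZMod 3 → ℕ := (![0, 1, 1] : Fin 3 → ℕ)

set_option maxRecDepth 20000 in
theorem sstep3 : SStep 3 phi3 := by
  intro v h0 hx hd hL
  have hpos : 0 < v 1 + v 2 := by
    by_contra hcon
    obtain ⟨x, hx⟩ := hx
    apply hx
    clear hx hd hL
    revert x
    exact all3 _ h0 (by omega) (by omega)
  have l2 : S 1 v ≤ S 2 v := hL 2 (by decide +kernel)
  have e1 := s3_1 v
  have e2 := s3_2 v
  clear hL hx
  by_cases c0 : 1 ≤ v 1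
  · by_cases c1 : 1 ≤ v 2
    · exact Or.inl ⟨(![0, 1, 1] : Fin 3 → ℕ), all3 _ (Nat.zero_le _) (show 1 ≤ v 1 by omega) (show 1 ≤ v 2 by omega),
        by decide +kernel, units3 _ ⟨3, by decide +kernel, le_refl _⟩ ⟨3, by decide +kernel, by omega⟩⟩
    by_cases c2 : 3 ≤ v 1
    · exact Or.inl ⟨(![0, 3, 0] : Fin 3 → ℕ), all3 _ (Nat.zero_le _) (show 3 ≤ v 1 by omega) (Nat.zero_le _),
        by decide +kernel, units3 _ ⟨3, by decide +kernel, le_refl _⟩ ⟨6, by decide +kernel, by omega⟩⟩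
    exfalso; omega
  exfalso; omega

lemma phi3_pos : ∀ x : ZMod 3, x ≠ 0 → 0 < phi3 x := by decide +kernel

end Pool.Agent.Q326.ZS
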