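import Pool.Agent.Q326.ZS.Swap

/-! The degree `5`. -/

set_option autoImplicit false

namespace Pool.Agent.Q326.ZS

lemma all5 (P : ZMod 5 → Prop) (h0 : P 0) (h1 : P 1) (h2 : P 2) (h3 : P 3) (h4 : P 4) : ∀ x, P x := by
  have h : ∀ x : ZMod 5, x = 0 ∨ x = 1 ∨ x = 2 ∨ x = 3 ∨ x = 4 := by decide +kernel
  intro x
  rcases h x with rfl | rfl | rfl | rfl | rfl <;> assumption

lemma units5 (P : ZMod 5 → Prop) (h1 : P 1) (h2 : P 2) (h3 : P 3) (h4 : P 4) : ∀ x, IsUnit x → P x := by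
  have h : ∀ x : ZMod 5, IsUnit x → x = 1 ∨ x = 2 ∨ x = 3 ∨ x = 4 := by decide +kernel
  intro x hx
  rcases h x hx with rfl | rfl | rfl | rfl <;> assumption

lemma sum5 (f : Fin 5 → ℕ) : ∑ x, f x = f 0 + f 1 + f 2 + f 3 + f 4 := by
  simp only [Fin.sum_univ_castSucc, Finset.univ_eq_empty, Finset.sum_empty, zero_add]
  rfl

lemma s5_1 (v : ZMod 5 → ℕ) : S 1 v = v 0 * 0 + v 1 * 1 + v 2 * 2 + v 3 * 3 + v 4 * 4 :=
  sum5 (fun x : ZMod 5 => v x * ((1 : ZMod 5) * x).val)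

lemma s5_2 (v : ZMod 5 → ℕ) : S 2 v = v 0 * 0 + v 1 * 2 + v 2 * 4 + v 3 * 1 + v 4 * 3 :=
  sum5 (fun x : ZMod 5 => v x * ((2 : ZMod 5) * x).val)

lemma s5_3 (v : ZMod 5 → ℕ) : S 3 v = v 0 * 0 + v 1 * 3 + v 2 * 1 + v 3 * 4 + v 4 * 2 :=
  sum5 (fun x : ZMod 5 => v x * ((3 : ZMod 5) * x).val)

lemma s5_4 (v : ZMod 5 → ℕ) : S 4 v = v 0 * 0 + v 1 * 4 + v 2 * 3 + v 3 * 2 + v 4 * 1 :=
  sum5 (fun x : ZMod 5 => v x * ((4 : ZMod 5) * x).val)

/-- the potential for degree `5` -/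
def phi5 : ZMod 5 → ℕ := (![0, 1, 1, 1, 1] : Fin 5 → ℕ)

set_option maxRecDepth 20000 in
theorem sstep5 : SStep 5 phi5 := by
  intro v h0 hx hd hL
  have hpos : 0 < v 1 + v 2 + v 3 + v 4 := by
    by_contra hcon
    obtain ⟨x, hx⟩ := hx
    apply hx
    clear hx hd hL
    revert x
    exact all5 _ h0 (by omega) (by omega) (by omega) (by omega)
  have l2 : S 1 v ≤ S 2 v := hL 2 (by decide +kernel)
  have l3 : S 1 v ≤ S 3 v := hL 3 (by decide +kernel)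
  have l4 : S 1 v ≤ S 4 v := hL 4 (by decide +kernel)
  have e1 := s5_1 v
  have e2 := s5_2 v
  have e3 := s5_3 v
  have e4 := s5_4 v
  clear hL hx
  by_cases c0 : 1 ≤ v 1
  · by_cases c1 : 1 ≤ v 4
    · exact Or.inl ⟨(![0, 1, 0, 0, 1] : Fin 5 → ℕ), all5 _ (Nat.zero_le _) (show 1 ≤ v 1 by omega) (Nat.zero_le _) (Nat.zero_le _) (show 1 ≤ v 4 by omega),
        by decide +kernel, units5 _ ⟨5, by decide +kernel, le_refl _⟩ ⟨5, by decide +kernel, by omega⟩ ⟨5, by decide +kernel, by omega⟩ ⟨5, by decide +kernel, by omega⟩⟩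
    by_cases c2 : 1 ≤ v 2
    · by_cases c3 : 1 ≤ v 3
      · exact Or.inl ⟨(![0, 0, 1, 1, 0] : Fin 5 → ℕ), all5 _ (Nat.zero_le _) (Nat.zero_le _) (show 1 ≤ v 2 by omega) (show 1 ≤ v 3 by omega) (Nat.zero_le _),
          by decide +kernel, units5 _ ⟨5, by decide +kernel, le_refl _⟩ ⟨5, by decide +kernel, by omega⟩ ⟨5, by decide +kernel, by omega⟩ ⟨5, by decide +kernel, by omega⟩⟩
      by_cases c4 : 2 ≤ v 2
      · exact Or.inl ⟨(![0, 1, 2, 0, 0] : Fin 5 → ℕ), all5 _ (Nat.zero_le _) (show 1 ≤ v 1 by omega) (show 2 ≤ v 2 by omega) (Nat.zero_le _) (Nat.zero_le _),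
          by decide +kernel, units5 _ ⟨5, by decide +kernel, le_refl _⟩ ⟨10, by decide +kernel, by omega⟩ ⟨5, by decide +kernel, by omega⟩ ⟨10, by decide +kernel, by omega⟩⟩
      by_cases c5 : 5 ≤ v 1
      · exact Or.inl ⟨(![0, 5, 0, 0, 0] : Fin 5 → ℕ), all5 _ (Nat.zero_le _) (show 5 ≤ v 1 by omega) (Nat.zero_le _) (Nat.zero_le _) (Nat.zero_le _),
          by decide +kernel, units5 _ ⟨5, by decide +kernel, le_refl _⟩ ⟨10, by decide +kernel, by omega⟩ ⟨15, by decide +kernel, by omega⟩ ⟨20, by decide +kernel, by omega⟩⟩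
      by_cases c6 : 3 ≤ v 1
      · exact Or.inl ⟨(![0, 3, 1, 0, 0] : Fin 5 → ℕ), all5 _ (Nat.zero_le _) (show 3 ≤ v 1 by omega) (show 1 ≤ v 2 by omega) (Nat.zero_le _) (Nat.zero_le _),
          by decide +kernel, units5 _ ⟨5, by decide +kernel, le_refl _⟩ ⟨10, by decide +kernel, by omega⟩ ⟨10, by decide +kernel, by omega⟩ ⟨15, by decide +kernel, by omega⟩⟩
      exfalso; omega
    by_cases c7 : 1 ≤ v 3
    · by_cases c8 : 2 ≤ v 1
      · exact Or.inl ⟨(![0, 2, 0, 1, 0] : Fin 5 → ℕ), all5 _ (Nat.zero_le _) (show 2 ≤ v 1 by omega) (Nat.zero_le _) (show 1 ≤ v 3 by omega) (Nat.zero_le _),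
          by decide +kernel, units5 _ ⟨5, by decide +kernel, le_refl _⟩ ⟨5, by decide +kernel, by omega⟩ ⟨10, by decide +kernel, by omega⟩ ⟨10, by decide +kernel, by omega⟩⟩
      exfalso; omega
    by_cases c9 : 5 ≤ v 1
    · exact Or.inl ⟨(![0, 5, 0, 0, 0] : Fin 5 → ℕ), all5 _ (Nat.zero_le _) (show 5 ≤ v 1 by omega) (Nat.zero_le _) (Nat.zero_le _) (Nat.zero_le _),
        by decide +kernel, units5 _ ⟨5, by decide +kernel, le_refl _⟩ ⟨10, by decide +kernel, by omega⟩ ⟨15, by decide +kernel, by omega⟩ ⟨20, by decide +kernel, by omega⟩⟩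
    exfalso; omega
  by_cases c10 : 1 ≤ v 4
  · exfalso; omega
  by_cases c11 : 1 ≤ v 2
  · by_cases c12 : 1 ≤ v 3
    · exact Or.inl ⟨(![0, 0, 1, 1, 0] : Fin 5 → ℕ), all5 _ (Nat.zero_le _) (Nat.zero_le _) (show 1 ≤ v 2 by omega) (show 1 ≤ v 3 by omega) (Nat.zero_le _),
        by decide +kernel, units5 _ ⟨5, by decide +kernel, le_refl _⟩ ⟨5, by decide +kernel, by omega⟩ ⟨5, by decide +kernel, by omega⟩ ⟨5, by decide +kernel, by omega⟩⟩
    exfalso; omega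
  exfalso; omega

lemma phi5_pos : ∀ x : ZMod 5, x ≠ 0 → 0 < phi5 x := by decide +kernel

end Pool.Agent.Q326.ZS
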