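import Pool.Agent.Q326.ZS.Swap

/-! The degree `6`. -/

set_option autoImplicit false

namespace Pool.Agent.Q326.ZS

lemma all6 (P : ZMod 6 → Prop) (h0 : P 0) (h1 : P 1) (h2 : P 2) (h3 : P 3) (h4 : P 4) (h5 : P 5) : ∀ x, P x := by
  have h : ∀ x : ZMod 6, x = 0 ∨ x = 1 ∨ x = 2 ∨ x = 3 ∨ x = 4 ∨ x = 5 := by decide +kernel
  intro x
  rcases h x with rfl | rfl | rfl | rfl | rfl | rfl <;> assumption

lemma units6 (P : ZMod 6 → Prop) (h1 : P 1) (h5 : P 5) : ∀ x, IsUnit x → P x := by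
  have h : ∀ x : ZMod 6, IsUnit x → x = 1 ∨ x = 5 := by decide +kernel
  intro x hx
  rcases h x hx with rfl | rfl <;> assumption

lemma sum6 (f : Fin 6 → ℕ) : ∑ x, f x = f 0 + f 1 + f 2 + f 3 + f 4 + f 5 := by
  simp only [Fin.sum_univ_castSucc, Finset.univ_eq_empty, Finset.sum_empty, zero_add]
  rfl

lemma s6_1 (v : ZMod 6 → ℕ) : S 1 v = v 0 * 0 + v 1 * 1 + v 2 * 2 + v 3 * 3 + v 4 * 4 + v 5 * 5 :=
  sum6 (fun x : ZMod 6 => v x * ((1 : ZMod 6) * x).val)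

lemma s6_5 (v : ZMod 6 → ℕ) : S 5 v = v 0 * 0 + v 1 * 5 + v 2 * 4 + v 3 * 3 + v 4 * 2 + v 5 * 1 :=
  sum6 (fun x : ZMod 6 => v x * ((5 : ZMod 6) * x).val)

/-- the potential for degree `6` -/
def phi6 : ZMod 6 → ℕ := (![0, 1, 2, 1, 2, 1] : Fin 6 → ℕ)

set_option maxRecDepth 20000 in
theorem sstep6 : SStep 6 phi6 := by
  intro v h0 hx hd hL
  have hpos : 0 < v 1 + v 2 + v 3 + v 4 + v 5 := by
    by_contra hcon
    obtain ⟨x, hx⟩ := hx
    apply hx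
    clear hx hd hL
    revert x
    exact all6 _ h0 (by omega) (by omega) (by omega) (by omega) (by omega)
  have l5 : S 1 v ≤ S 5 v := hL 5 (by decide +kernel)
  have e1 := s6_1 v
  have e5 := s6_5 v
  clear hL hx
  by_cases c0 : 1 ≤ v 1
  · by_cases c1 : 1 ≤ v 5
    · exact Or.inl ⟨(![0, 1, 0, 0, 0, 1] : Fin 6 → ℕ), all6 _ (Nat.zero_le _) (show 1 ≤ v 1 by omega) (Nat.zero_le _) (Nat.zero_le _) (Nat.zero_le _) (show 1 ≤ v 5 by omega),
        by decide +kernel, units6 _ ⟨6, by decide +kernel, le_refl _⟩ ⟨6, by decide +kernel, by omega⟩⟩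
    by_cases c2 : 1 ≤ v 2
    · by_cases c3 : 1 ≤ v 4
      · exact Or.inl ⟨(![0, 0, 1, 0, 1, 0] : Fin 6 → ℕ), all6 _ (Nat.zero_le _) (Nat.zero_le _) (show 1 ≤ v 2 by omega) (Nat.zero_le _) (show 1 ≤ v 4 by omega) (Nat.zero_le _),
          by decide +kernel, units6 _ ⟨6, by decide +kernel, le_refl _⟩ ⟨6, by decide +kernel, by omega⟩⟩
      by_cases c4 : 1 ≤ v 3
      · by_cases c5 : 2 ≤ v 3
        · exact Or.inl ⟨(![0, 0, 0, 2, 0, 0] : Fin 6 → ℕ), all6 _ (Nat.zero_le _) (Nat.zero_le _) (Nat.zero_le _) (show 2 ≤ v 3 by omega) (Nat.zero_le _) (Nat.zero_le _),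
            by decide +kernel, units6 _ ⟨6, by decide +kernel, le_refl _⟩ ⟨6, by decide +kernel, by omega⟩⟩
        by_cases c6 : 2 ≤ v 2
        · exact Or.inr ⟨2, 2, 1, 3, by decide +kernel, Or.inr ⟨rfl, by omega⟩⟩
        by_cases c7 : 6 ≤ v 1
        · exact Or.inl ⟨(![0, 6, 0, 0, 0, 0] : Fin 6 → ℕ), all6 _ (Nat.zero_le _) (show 6 ≤ v 1 by omega) (Nat.zero_le _) (Nat.zero_le _) (Nat.zero_le _) (Nat.zero_le _),
            by decide +kernel, units6 _ ⟨6, by decide +kernel, le_refl _⟩ ⟨30, by decide +kernel, by omega⟩⟩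
        exact Or.inl ⟨(![0, 1, 1, 1, 0, 0] : Fin 6 → ℕ), all6 _ (Nat.zero_le _) (show 1 ≤ v 1 by omega) (show 1 ≤ v 2 by omega) (show 1 ≤ v 3 by omega) (Nat.zero_le _) (Nat.zero_le _),
          by decide +kernel, units6 _ ⟨6, by decide +kernel, le_refl _⟩ ⟨12, by decide +kernel, by omega⟩⟩
      by_cases c8 : 2 ≤ v 2
      · exact Or.inr ⟨2, 2, 1, 3, by decide +kernel, Or.inr ⟨rfl, by omega⟩⟩
      by_cases c9 : 6 ≤ v 1
      · exact Or.inl ⟨(![0, 6, 0, 0, 0, 0] : Fin 6 → ℕ), all6 _ (Nat.zero_le _) (show 6 ≤ v 1 by omega) (Nat.zero_le _) (Nat.zero_le _) (Nat.zero_le _) (Nat.zero_le _),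
          by decide +kernel, units6 _ ⟨6, by decide +kernel, le_refl _⟩ ⟨30, by decide +kernel, by omega⟩⟩
      by_cases c10 : 4 ≤ v 1
      · exact Or.inl ⟨(![0, 4, 1, 0, 0, 0] : Fin 6 → ℕ), all6 _ (Nat.zero_le _) (show 4 ≤ v 1 by omega) (show 1 ≤ v 2 by omega) (Nat.zero_le _) (Nat.zero_le _) (Nat.zero_le _),
          by decide +kernel, units6 _ ⟨6, by decide +kernel, le_refl _⟩ ⟨24, by decide +kernel, by omega⟩⟩
      exfalso; omega
    by_cases c11 : 1 ≤ v 4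
    · by_cases c12 : 1 ≤ v 3
      · by_cases c13 : 2 ≤ v 3
        · exact Or.inl ⟨(![0, 0, 0, 2, 0, 0] : Fin 6 → ℕ), all6 _ (Nat.zero_le _) (Nat.zero_le _) (Nat.zero_le _) (show 2 ≤ v 3 by omega) (Nat.zero_le _) (Nat.zero_le _),
            by decide +kernel, units6 _ ⟨6, by decide +kernel, le_refl _⟩ ⟨6, by decide +kernel, by omega⟩⟩
        by_cases c14 : 2 ≤ v 4
        · exact Or.inr ⟨4, 4, 3, 5, by decide +kernel, Or.inr ⟨rfl, by omega⟩⟩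
        by_cases c15 : 6 ≤ v 1
        · exact Or.inl ⟨(![0, 6, 0, 0, 0, 0] : Fin 6 → ℕ), all6 _ (Nat.zero_le _) (show 6 ≤ v 1 by omega) (Nat.zero_le _) (Nat.zero_le _) (Nat.zero_le _) (Nat.zero_le _),
            by decide +kernel, units6 _ ⟨6, by decide +kernel, le_refl _⟩ ⟨30, by decide +kernel, by omega⟩⟩
        by_cases c16 : 2 ≤ v 1
        · exact Or.inl ⟨(![0, 2, 0, 0, 1, 0] : Fin 6 → ℕ), all6 _ (Nat.zero_le _) (show 2 ≤ v 1 by omega) (Nat.zero_le _) (Nat.zero_le _) (show 1 ≤ v 4 by omega) (Nat.zero_le _),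
            by decide +kernel, units6 _ ⟨6, by decide +kernel, le_refl _⟩ ⟨12, by decide +kernel, by omega⟩⟩
        exfalso; omega
      by_cases c17 : 2 ≤ v 4
      · exact Or.inr ⟨4, 4, 3, 5, by decide +kernel, Or.inr ⟨rfl, by omega⟩⟩
      by_cases c18 : 6 ≤ v 1
      · exact Or.inl ⟨(![0, 6, 0, 0, 0, 0] : Fin 6 → ℕ), all6 _ (Nat.zero_le _) (show 6 ≤ v 1 by omega) (Nat.zero_le _) (Nat.zero_le _) (Nat.zero_le _) (Nat.zero_le _),
          by decide +kernel, units6 _ ⟨6, by decide +kernel, le_refl _⟩ ⟨30, by decide +kernel, by omega⟩⟩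
      by_cases c19 : 2 ≤ v 1
      · exact Or.inl ⟨(![0, 2, 0, 0, 1, 0] : Fin 6 → ℕ), all6 _ (Nat.zero_le _) (show 2 ≤ v 1 by omega) (Nat.zero_le _) (Nat.zero_le _) (show 1 ≤ v 4 by omega) (Nat.zero_le _),
          by decide +kernel, units6 _ ⟨6, by decide +kernel, le_refl _⟩ ⟨12, by decide +kernel, by omega⟩⟩
      exfalso; omega
    by_cases c20 : 1 ≤ v 3
    · by_cases c21 : 2 ≤ v 3
      · exact Or.inl ⟨(![0, 0, 0, 2, 0, 0] : Fin 6 → ℕ), all6 _ (Nat.zero_le _) (Nat.zero_le _) (Nat.zero_le _) (show 2 ≤ v 3 by omega) (Nat.zero_le _) (Nat.zero_le _),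
          by decide +kernel, units6 _ ⟨6, by decide +kernel, le_refl _⟩ ⟨6, by decide +kernel, by omega⟩⟩
      by_cases c22 : 6 ≤ v 1
      · exact Or.inl ⟨(![0, 6, 0, 0, 0, 0] : Fin 6 → ℕ), all6 _ (Nat.zero_le _) (show 6 ≤ v 1 by omega) (Nat.zero_le _) (Nat.zero_le _) (Nat.zero_le _) (Nat.zero_le _),
          by decide +kernel, units6 _ ⟨6, by decide +kernel, le_refl _⟩ ⟨30, by decide +kernel, by omega⟩⟩
      by_cases c23 : 3 ≤ v 1
      · exact Or.inl ⟨(![0, 3, 0, 1, 0, 0] : Fin 6 → ℕ), all6 _ (Nat.zero_le _) (show 3 ≤ v 1 by omega) (Nat.zero_le _) (show 1 ≤ v 3 by omega) (Nat.zero_le _) (Nat.zero_le _),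
          by decide +kernel, units6 _ ⟨6, by decide +kernel, le_refl _⟩ ⟨18, by decide +kernel, by omega⟩⟩
      exfalso; omega
    by_cases c24 : 6 ≤ v 1
    · exact Or.inl ⟨(![0, 6, 0, 0, 0, 0] : Fin 6 → ℕ), all6 _ (Nat.zero_le _) (show 6 ≤ v 1 by omega) (Nat.zero_le _) (Nat.zero_le _) (Nat.zero_le _) (Nat.zero_le _),
        by decide +kernel, units6 _ ⟨6, by decide +kernel, le_refl _⟩ ⟨30, by decide +kernel, by omega⟩⟩
    exfalso; omega
  by_cases c25 : 1 ≤ v 5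
  · by_cases c26 : 1 ≤ v 2
    · by_cases c27 : 1 ≤ v 4
      · exact Or.inl ⟨(![0, 0, 1, 0, 1, 0] : Fin 6 → ℕ), all6 _ (Nat.zero_le _) (Nat.zero_le _) (show 1 ≤ v 2 by omega) (Nat.zero_le _) (show 1 ≤ v 4 by omega) (Nat.zero_le _),
          by decide +kernel, units6 _ ⟨6, by decide +kernel, le_refl _⟩ ⟨6, by decide +kernel, by omega⟩⟩
      by_cases c28 : 1 ≤ v 3
      · by_cases c29 : 2 ≤ v 3
        · exact Or.inl ⟨(![0, 0, 0, 2, 0, 0] : Fin 6 → ℕ), all6 _ (Nat.zero_le _) (Nat.zero_le _) (Nat.zero_le _) (show 2 ≤ v 3 by omega) (Nat.zero_le _) (Nat.zero_le _),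
            by decide +kernel, units6 _ ⟨6, by decide +kernel, le_refl _⟩ ⟨6, by decide +kernel, by omega⟩⟩
        by_cases c30 : 2 ≤ v 2
        · exact Or.inr ⟨2, 2, 1, 3, by decide +kernel, Or.inr ⟨rfl, by omega⟩⟩
        exfalso; omega
      by_cases c31 : 2 ≤ v 2
      · exact Or.inr ⟨2, 2, 1, 3, by decide +kernel, Or.inr ⟨rfl, by omega⟩⟩
      exfalso; omega
    exfalso; omega
  by_cases c32 : 1 ≤ v 2
  · by_cases c33 : 1 ≤ v 4
    · exact Or.inl ⟨(![0, 0, 1, 0, 1, 0] : Fin 6 → ℕ), all6 _ (Nat.zero_le _) (Nat.zero_le _) (show 1 ≤ v 2 by omega) (Nat.zero_le _) (show 1 ≤ v 4 by omega) (Nat.zero_le _),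
        by decide +kernel, units6 _ ⟨6, by decide +kernel, le_refl _⟩ ⟨6, by decide +kernel, by omega⟩⟩
    by_cases c34 : 1 ≤ v 3
    · by_cases c35 : 2 ≤ v 3
      · exact Or.inl ⟨(![0, 0, 0, 2, 0, 0] : Fin 6 → ℕ), all6 _ (Nat.zero_le _) (Nat.zero_le _) (Nat.zero_le _) (show 2 ≤ v 3 by omega) (Nat.zero_le _) (Nat.zero_le _),
          by decide +kernel, units6 _ ⟨6, by decide +kernel, le_refl _⟩ ⟨6, by decide +kernel, by omega⟩⟩
      exfalso; omega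
    by_cases c36 : 2 ≤ v 2
    · exact Or.inr ⟨2, 2, 1, 3, by decide +kernel, Or.inr ⟨rfl, by omega⟩⟩
    exfalso; omega
  by_cases c37 : 1 ≤ v 4
  · exfalso; omega
  by_cases c38 : 1 ≤ v 3
  · by_cases c39 : 2 ≤ v 3
    · exact Or.inl ⟨(![0, 0, 0, 2, 0, 0] : Fin 6 → ℕ), all6 _ (Nat.zero_le _) (Nat.zero_le _) (Nat.zero_le _) (show 2 ≤ v 3 by omega) (Nat.zero_le _) (Nat.zero_le _),
        by decide +kernel, units6 _ ⟨6, by decide +kernel, le_refl _⟩ ⟨6, by decide +kernel, by omega⟩⟩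
    exfalso; omega
  exfalso; omega

lemma phi6_pos : ∀ x : ZMod 6, x ≠ 0 → 0 < phi6 x := by decide +kernel

end Pool.Agent.Q326.ZS
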