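import Pool.Agent.Q326.ZS.Swap

/-! The degree `8`. -/

set_option autoImplicit false

namespace Pool.Agent.Q326.ZS

lemma all8 (P : ZMod 8 → Prop) (h0 : P 0) (h1 : P 1) (h2 : P 2) (h3 : P 3) (h4 : P 4) (h5 : P 5) (h6 : P 6) (h7 : P 7) : ∀ x, P x := by
  have h : ∀ x : ZMod 8, x = 0 ∨ x = 1 ∨ x = 2 ∨ x = 3 ∨ x = 4 ∨ x = 5 ∨ x = 6 ∨ x = 7 := by decide +kernel
  intro x
  rcases h x with rfl | rfl | rfl | rfl | rfl | rfl | rfl | rfl <;> assumption

lemma units8 (P : ZMod 8 → Prop) (h1 : P 1) (h3 : P 3) (h5 : P 5) (h7 : P 7) : ∀ x, IsUnit x → P x := by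
  have h : ∀ x : ZMod 8, IsUnit x → x = 1 ∨ x = 3 ∨ x = 5 ∨ x = 7 := by decide +kernel
  intro x hx
  rcases h x hx with rfl | rfl | rfl | rfl <;> assumption

lemma sum8 (f : Fin 8 → ℕ) : ∑ x, f x = f 0 + f 1 + f 2 + f 3 + f 4 + f 5 + f 6 + f 7 := by
  simp only [Fin.sum_univ_castSucc, Finset.univ_eq_empty, Finset.sum_empty, zero_add]
  rfl

lemma s8_1 (v : ZMod 8 → ℕ) : S 1 v = v 0 * 0 + v 1 * 1 + v 2 * 2 + v 3 * 3 + v 4 * 4 + v 5 * 5 + v 6 * 6 + v 7 * 7 :=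
  sum8 (fun x : ZMod 8 => v x * ((1 : ZMod 8) * x).val)

lemma s8_3 (v : ZMod 8 → ℕ) : S 3 v = v 0 * 0 + v 1 * 3 + v 2 * 6 + v 3 * 1 + v 4 * 4 + v 5 * 7 + v 6 * 2 + v 7 * 5 :=
  sum8 (fun x : ZMod 8 => v x * ((3 : ZMod 8) * x).val)

lemma s8_5 (v : ZMod 8 → ℕ) : S 5 v = v 0 * 0 + v 1 * 5 + v 2 * 2 + v 3 * 7 + v 4 * 4 + v 5 * 1 + v 6 * 6 + v 7 * 3 :=
  sum8 (fun x : ZMod 8 => v x * ((5 : ZMod 8) * x).val)

lemma s8_7 (v : ZMod 8 → ℕ) : S 7 v = v 0 * 0 + v 1 * 7 + v 2 * 6 + v 3 * 5 + v 4 * 4 + v 5 * 3 + v 6 * 2 + v 7 * 1 :=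
  sum8 (fun x : ZMod 8 => v x * ((7 : ZMod 8) * x).val)

/-- the potential for degree `8` -/
def phi8 : ZMod 8 → ℕ := (![0, 2, 1, 2, 1, 2, 1, 2] : Fin 8 → ℕ)

set_option maxHeartbeats 4000000 in
set_option maxRecDepth 20000 in
theorem sstep8 : SStep 8 phi8 := by
  intro v h0 hx hd hL
  have hpos : 0 < v 1 + v 2 + v 3 + v 4 + v 5 + v 6 + v 7 := by
    by_contra hcon
    obtain ⟨x, hx⟩ := hx
    apply hx
    clear hx hd hL
    revert x
    exact all8 _ h0 (by omega) (by omega) (by omega) (by omega) (by omega) (by omega) (by omega)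
  have l3 : S 1 v ≤ S 3 v := hL 3 (by decide +kernel)
  have l5 : S 1 v ≤ S 5 v := hL 5 (by decide +kernel)
  have l7 : S 1 v ≤ S 7 v := hL 7 (by decide +kernel)
  have e1 := s8_1 v
  have e3 := s8_3 v
  have e5 := s8_5 v
  have e7 := s8_7 v
  clear hL hx
  by_cases c0 : 1 ≤ v 1
  · by_cases c1 : 1 ≤ v 7
    · exact Or.inl ⟨(![0, 1, 0, 0, 0, 0, 0, 1] : Fin 8 → ℕ), all8 _ (Nat.zero_le _) (show 1 ≤ v 1 by omega) (Nat.zero_le _) (Nat.zero_le _) (Nat.zero_le _) (Nat.zero_le _) (Nat.zero_le _) (show 1 ≤ v 7 by omega),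
        by decide +kernel, units8 _ ⟨8, by decide +kernel, le_refl _⟩ ⟨8, by decide +kernel, by omega⟩ ⟨8, by decide +kernel, by omega⟩ ⟨8, by decide +kernel, by omega⟩⟩
    by_cases c2 : 1 ≤ v 2
    · by_cases c3 : 1 ≤ v 6
      · exact Or.inl ⟨(![0, 0, 1, 0, 0, 0, 1, 0] : Fin 8 → ℕ), all8 _ (Nat.zero_le _) (Nat.zero_le _) (show 1 ≤ v 2 by omega) (Nat.zero_le _) (Nat.zero_le _) (Nat.zero_le _) (show 1 ≤ v 6 by omega) (Nat.zero_le _),
          by decide +kernel, units8 _ ⟨8, by decide +kernel, le_refl _⟩ ⟨8, by decide +kernel, by omega⟩ ⟨8, by decide +kernel, by omega⟩ ⟨8, by decide +kernel, by omega⟩⟩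
      by_cases c4 : 1 ≤ v 3
      · by_cases c5 : 1 ≤ v 5
        · exact Or.inl ⟨(![0, 0, 0, 1, 0, 1, 0, 0] : Fin 8 → ℕ), all8 _ (Nat.zero_le _) (Nat.zero_le _) (Nat.zero_le _) (show 1 ≤ v 3 by omega) (Nat.zero_le _) (show 1 ≤ v 5 by omega) (Nat.zero_le _) (Nat.zero_le _),
            by decide +kernel, units8 _ ⟨8, by decide +kernel, le_refl _⟩ ⟨8, by decide +kernel, by omega⟩ ⟨8, by decide +kernel, by omega⟩ ⟨8, by decide +kernel, by omega⟩⟩
        by_cases c6 : 1 ≤ v 4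
        · by_cases c7 : 2 ≤ v 4
          · exact Or.inl ⟨(![0, 0, 0, 0, 2, 0, 0, 0] : Fin 8 → ℕ), all8 _ (Nat.zero_le _) (Nat.zero_le _) (Nat.zero_le _) (Nat.zero_le _) (show 2 ≤ v 4 by omega) (Nat.zero_le _) (Nat.zero_le _) (Nat.zero_le _),
              by decide +kernel, units8 _ ⟨8, by decide +kernel, le_refl _⟩ ⟨8, by decide +kernel, by omega⟩ ⟨8, by decide +kernel, by omega⟩ ⟨8, by decide +kernel, by omega⟩⟩
          by_cases c8 : 2 ≤ v 3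
          · exact Or.inl ⟨(![0, 0, 1, 2, 0, 0, 0, 0] : Fin 8 → ℕ), all8 _ (Nat.zero_le _) (Nat.zero_le _) (show 1 ≤ v 2 by omega) (show 2 ≤ v 3 by omega) (Nat.zero_le _) (Nat.zero_le _) (Nat.zero_le _) (Nat.zero_le _),
              by decide +kernel, units8 _ ⟨8, by decide +kernel, le_refl _⟩ ⟨8, by decide +kernel, by omega⟩ ⟨16, by decide +kernel, by omega⟩ ⟨16, by decide +kernel, by omega⟩⟩
          by_cases c9 : 4 ≤ v 2
          · exact Or.inl ⟨(![0, 0, 4, 0, 0, 0, 0, 0] : Fin 8 → ℕ), all8 _ (Nat.zero_le _) (Nat.zero_le _) (show 4 ≤ v 2 by omega) (Nat.zero_le _) (Nat.zero_le _) (Nat.zero_le _) (Nat.zero_le _) (Nat.zero_le _),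
              by decide +kernel, units8 _ ⟨8, by decide +kernel, le_refl _⟩ ⟨24, by decide +kernel, by omega⟩ ⟨8, by decide +kernel, by omega⟩ ⟨24, by decide +kernel, by omega⟩⟩
          exact Or.inl ⟨(![0, 1, 0, 1, 1, 0, 0, 0] : Fin 8 → ℕ), all8 _ (Nat.zero_le _) (show 1 ≤ v 1 by omega) (Nat.zero_le _) (show 1 ≤ v 3 by omega) (show 1 ≤ v 4 by omega) (Nat.zero_le _) (Nat.zero_le _) (Nat.zero_le _),
            by decide +kernel, units8 _ ⟨8, by decide +kernel, le_refl _⟩ ⟨8, by decide +kernel, by omega⟩ ⟨16, by decide +kernel, by omega⟩ ⟨16, by decide +kernel, by omega⟩⟩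
        by_cases c10 : 2 ≤ v 3
        · exact Or.inl ⟨(![0, 0, 1, 2, 0, 0, 0, 0] : Fin 8 → ℕ), all8 _ (Nat.zero_le _) (Nat.zero_le _) (show 1 ≤ v 2 by omega) (show 2 ≤ v 3 by omega) (Nat.zero_le _) (Nat.zero_le _) (Nat.zero_le _) (Nat.zero_le _),
            by decide +kernel, units8 _ ⟨8, by decide +kernel, le_refl _⟩ ⟨8, by decide +kernel, by omega⟩ ⟨16, by decide +kernel, by omega⟩ ⟨16, by decide +kernel, by omega⟩⟩
        by_cases c11 : 4 ≤ v 2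
        · exact Or.inl ⟨(![0, 0, 4, 0, 0, 0, 0, 0] : Fin 8 → ℕ), all8 _ (Nat.zero_le _) (Nat.zero_le _) (show 4 ≤ v 2 by omega) (Nat.zero_le _) (Nat.zero_le _) (Nat.zero_le _) (Nat.zero_le _) (Nat.zero_le _),
            by decide +kernel, units8 _ ⟨8, by decide +kernel, le_refl _⟩ ⟨24, by decide +kernel, by omega⟩ ⟨8, by decide +kernel, by omega⟩ ⟨24, by decide +kernel, by omega⟩⟩
        by_cases c12 : 6 ≤ v 1
        · exact Or.inl ⟨(![0, 6, 1, 0, 0, 0, 0, 0] : Fin 8 → ℕ), all8 _ (Nat.zero_le _) (show 6 ≤ v 1 by omega) (show 1 ≤ v 2 by omega) (Nat.zero_le _) (Nat.zero_le _) (Nat.zero_le _) (Nat.zero_le _) (Nat.zero_le _),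
            by decide +kernel, units8 _ ⟨8, by decide +kernel, le_refl _⟩ ⟨24, by decide +kernel, by omega⟩ ⟨32, by decide +kernel, by omega⟩ ⟨48, by decide +kernel, by omega⟩⟩
        by_cases c13 : 2 ≤ v 2
        · exact Or.inl ⟨(![0, 1, 2, 1, 0, 0, 0, 0] : Fin 8 → ℕ), all8 _ (Nat.zero_le _) (show 1 ≤ v 1 by omega) (show 2 ≤ v 2 by omega) (show 1 ≤ v 3 by omega) (Nat.zero_le _) (Nat.zero_le _) (Nat.zero_le _) (Nat.zero_le _),
            by decide +kernel, units8 _ ⟨8, by decide +kernel, le_refl _⟩ ⟨16, by decide +kernel, by omega⟩ ⟨16, by decide +kernel, by omega⟩ ⟨24, by decide +kernel, by omega⟩⟩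
        by_cases c14 : 3 ≤ v 1
        · exact Or.inl ⟨(![0, 3, 1, 1, 0, 0, 0, 0] : Fin 8 → ℕ), all8 _ (Nat.zero_le _) (show 3 ≤ v 1 by omega) (show 1 ≤ v 2 by omega) (show 1 ≤ v 3 by omega) (Nat.zero_le _) (Nat.zero_le _) (Nat.zero_le _) (Nat.zero_le _),
            by decide +kernel, units8 _ ⟨8, by decide +kernel, le_refl _⟩ ⟨16, by decide +kernel, by omega⟩ ⟨24, by decide +kernel, by omega⟩ ⟨32, by decide +kernel, by omega⟩⟩
        exfalso; first | omega | (rcases (by omega : v 1 = 1 ∨ v 1 = 2) with q1 | q1 <;> omega)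
      by_cases c15 : 1 ≤ v 5
      · exact Or.inr ⟨1, 5, 2, 4, by decide +kernel, Or.inl ⟨by decide, by omega, by omega⟩⟩
      by_cases c16 : 1 ≤ v 4
      · by_cases c17 : 2 ≤ v 4
        · exact Or.inl ⟨(![0, 0, 0, 0, 2, 0, 0, 0] : Fin 8 → ℕ), all8 _ (Nat.zero_le _) (Nat.zero_le _) (Nat.zero_le _) (Nat.zero_le _) (show 2 ≤ v 4 by omega) (Nat.zero_le _) (Nat.zero_le _) (Nat.zero_le _),
            by decide +kernel, units8 _ ⟨8, by decide +kernel, le_refl _⟩ ⟨8, by decide +kernel, by omega⟩ ⟨8, by decide +kernel, by omega⟩ ⟨8, by decide +kernel, by omega⟩⟩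
        by_cases c18 : 4 ≤ v 2
        · exact Or.inl ⟨(![0, 0, 4, 0, 0, 0, 0, 0] : Fin 8 → ℕ), all8 _ (Nat.zero_le _) (Nat.zero_le _) (show 4 ≤ v 2 by omega) (Nat.zero_le _) (Nat.zero_le _) (Nat.zero_le _) (Nat.zero_le _) (Nat.zero_le _),
            by decide +kernel, units8 _ ⟨8, by decide +kernel, le_refl _⟩ ⟨24, by decide +kernel, by omega⟩ ⟨8, by decide +kernel, by omega⟩ ⟨24, by decide +kernel, by omega⟩⟩
        by_cases c19 : 6 ≤ v 1
        · exact Or.inl ⟨(![0, 6, 1, 0, 0, 0, 0, 0] : Fin 8 → ℕ), all8 _ (Nat.zero_le _) (show 6 ≤ v 1 by omega) (show 1 ≤ v 2 by omega) (Nat.zero_le _) (Nat.zero_le _) (Nat.zero_le _) (Nat.zero_le _) (Nat.zero_le _),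
            by decide +kernel, units8 _ ⟨8, by decide +kernel, le_refl _⟩ ⟨24, by decide +kernel, by omega⟩ ⟨32, by decide +kernel, by omega⟩ ⟨48, by decide +kernel, by omega⟩⟩
        by_cases c20 : 4 ≤ v 1
        · exfalso; first | omega | (rcases (by omega : v 1 = 4 ∨ v 1 = 5) with q1 | q1 <;> rcases (by omega : v 2 = 1 ∨ v 2 = 2 ∨ v 2 = 3) with q2 | q2 | q2 <;> omega)
        by_cases c21 : 2 ≤ v 2
        · exfalso; first | omega | (rcases (by omega : v 1 = 1 ∨ v 1 = 2 ∨ v 1 = 3) with q1 | q1 | q1 <;> rcases (by omega : v 2 = 2 ∨ v 2 = 3) with q2 | q2 <;> omega)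
        by_cases c22 : 2 ≤ v 1
        · exact Or.inl ⟨(![0, 2, 1, 0, 1, 0, 0, 0] : Fin 8 → ℕ), all8 _ (Nat.zero_le _) (show 2 ≤ v 1 by omega) (show 1 ≤ v 2 by omega) (Nat.zero_le _) (show 1 ≤ v 4 by omega) (Nat.zero_le _) (Nat.zero_le _) (Nat.zero_le _),
            by decide +kernel, units8 _ ⟨8, by decide +kernel, le_refl _⟩ ⟨16, by decide +kernel, by omega⟩ ⟨16, by decide +kernel, by omega⟩ ⟨24, by decide +kernel, by omega⟩⟩
        exfalso; omega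
      by_cases c23 : 4 ≤ v 2
      · exact Or.inl ⟨(![0, 0, 4, 0, 0, 0, 0, 0] : Fin 8 → ℕ), all8 _ (Nat.zero_le _) (Nat.zero_le _) (show 4 ≤ v 2 by omega) (Nat.zero_le _) (Nat.zero_le _) (Nat.zero_le _) (Nat.zero_le _) (Nat.zero_le _),
          by decide +kernel, units8 _ ⟨8, by decide +kernel, le_refl _⟩ ⟨24, by decide +kernel, by omega⟩ ⟨8, by decide +kernel, by omega⟩ ⟨24, by decide +kernel, by omega⟩⟩
      by_cases c24 : 6 ≤ v 1
      · exact Or.inl ⟨(![0, 6, 1, 0, 0, 0, 0, 0] : Fin 8 → ℕ), all8 _ (Nat.zero_le _) (show 6 ≤ v 1 by omega) (show 1 ≤ v 2 by omega) (Nat.zero_le _) (Nat.zero_le _) (Nat.zero_le _) (Nat.zero_le _) (Nat.zero_le _),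
          by decide +kernel, units8 _ ⟨8, by decide +kernel, le_refl _⟩ ⟨24, by decide +kernel, by omega⟩ ⟨32, by decide +kernel, by omega⟩ ⟨48, by decide +kernel, by omega⟩⟩
      by_cases c25 : 2 ≤ v 1
      · by_cases c26 : 3 ≤ v 2
        · exact Or.inl ⟨(![0, 2, 3, 0, 0, 0, 0, 0] : Fin 8 → ℕ), all8 _ (Nat.zero_le _) (show 2 ≤ v 1 by omega) (show 3 ≤ v 2 by omega) (Nat.zero_le _) (Nat.zero_le _) (Nat.zero_le _) (Nat.zero_le _) (Nat.zero_le _),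
            by decide +kernel, units8 _ ⟨8, by decide +kernel, le_refl _⟩ ⟨24, by decide +kernel, by omega⟩ ⟨16, by decide +kernel, by omega⟩ ⟨32, by decide +kernel, by omega⟩⟩
        by_cases c27 : 4 ≤ v 1
        · by_cases c28 : 2 ≤ v 2
          · exact Or.inl ⟨(![0, 4, 2, 0, 0, 0, 0, 0] : Fin 8 → ℕ), all8 _ (Nat.zero_le _) (show 4 ≤ v 1 by omega) (show 2 ≤ v 2 by omega) (Nat.zero_le _) (Nat.zero_le _) (Nat.zero_le _) (Nat.zero_le _) (Nat.zero_le _),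
              by decide +kernel, units8 _ ⟨8, by decide +kernel, le_refl _⟩ ⟨24, by decide +kernel, by omega⟩ ⟨24, by decide +kernel, by omega⟩ ⟨40, by decide +kernel, by omega⟩⟩
          exfalso; first | omega | (rcases (by omega : v 1 = 4 ∨ v 1 = 5) with q1 | q1 <;> omega)
        exfalso; first | omega | (rcases (by omega : v 1 = 2 ∨ v 1 = 3) with q1 | q1 <;> rcases (by omega : v 2 = 1 ∨ v 2 = 2) with q2 | q2 <;> omega)
      exfalso; first | omega | (rcases (by omega : v 2 = 1 ∨ v 2 = 2 ∨ v 2 = 3) with q2 | q2 | q2 <;> omega)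
    by_cases c29 : 1 ≤ v 6
    · by_cases c30 : 1 ≤ v 3
      · by_cases c31 : 1 ≤ v 5
        · exact Or.inl ⟨(![0, 0, 0, 1, 0, 1, 0, 0] : Fin 8 → ℕ), all8 _ (Nat.zero_le _) (Nat.zero_le _) (Nat.zero_le _) (show 1 ≤ v 3 by omega) (Nat.zero_le _) (show 1 ≤ v 5 by omega) (Nat.zero_le _) (Nat.zero_le _),
            by decide +kernel, units8 _ ⟨8, by decide +kernel, le_refl _⟩ ⟨8, by decide +kernel, by omega⟩ ⟨8, by decide +kernel, by omega⟩ ⟨8, by decide +kernel, by omega⟩⟩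
        by_cases c32 : 1 ≤ v 4
        · by_cases c33 : 2 ≤ v 4
          · exact Or.inl ⟨(![0, 0, 0, 0, 2, 0, 0, 0] : Fin 8 → ℕ), all8 _ (Nat.zero_le _) (Nat.zero_le _) (Nat.zero_le _) (Nat.zero_le _) (show 2 ≤ v 4 by omega) (Nat.zero_le _) (Nat.zero_le _) (Nat.zero_le _),
              by decide +kernel, units8 _ ⟨8, by decide +kernel, le_refl _⟩ ⟨8, by decide +kernel, by omega⟩ ⟨8, by decide +kernel, by omega⟩ ⟨8, by decide +kernel, by omega⟩⟩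
          by_cases c34 : 2 ≤ v 1
          · exact Or.inl ⟨(![0, 2, 0, 0, 0, 0, 1, 0] : Fin 8 → ℕ), all8 _ (Nat.zero_le _) (show 2 ≤ v 1 by omega) (Nat.zero_le _) (Nat.zero_le _) (Nat.zero_le _) (Nat.zero_le _) (show 1 ≤ v 6 by omega) (Nat.zero_le _),
              by decide +kernel, units8 _ ⟨8, by decide +kernel, le_refl _⟩ ⟨8, by decide +kernel, by omega⟩ ⟨16, by decide +kernel, by omega⟩ ⟨16, by decide +kernel, by omega⟩⟩
          exfalso; omega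
        by_cases c35 : 2 ≤ v 1
        · exact Or.inl ⟨(![0, 2, 0, 0, 0, 0, 1, 0] : Fin 8 → ℕ), all8 _ (Nat.zero_le _) (show 2 ≤ v 1 by omega) (Nat.zero_le _) (Nat.zero_le _) (Nat.zero_le _) (Nat.zero_le _) (show 1 ≤ v 6 by omega) (Nat.zero_le _),
            by decide +kernel, units8 _ ⟨8, by decide +kernel, le_refl _⟩ ⟨8, by decide +kernel, by omega⟩ ⟨16, by decide +kernel, by omega⟩ ⟨16, by decide +kernel, by omega⟩⟩
        exfalso; omega
      by_cases c36 : 1 ≤ v 5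
      · exact Or.inr ⟨1, 5, 2, 4, by decide +kernel, Or.inl ⟨by decide, by omega, by omega⟩⟩
      by_cases c37 : 1 ≤ v 4
      · by_cases c38 : 2 ≤ v 4
        · exact Or.inl ⟨(![0, 0, 0, 0, 2, 0, 0, 0] : Fin 8 → ℕ), all8 _ (Nat.zero_le _) (Nat.zero_le _) (Nat.zero_le _) (Nat.zero_le _) (show 2 ≤ v 4 by omega) (Nat.zero_le _) (Nat.zero_le _) (Nat.zero_le _),
            by decide +kernel, units8 _ ⟨8, by decide +kernel, le_refl _⟩ ⟨8, by decide +kernel, by omega⟩ ⟨8, by decide +kernel, by omega⟩ ⟨8, by decide +kernel, by omega⟩⟩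
        by_cases c39 : 2 ≤ v 1
        · exact Or.inl ⟨(![0, 2, 0, 0, 0, 0, 1, 0] : Fin 8 → ℕ), all8 _ (Nat.zero_le _) (show 2 ≤ v 1 by omega) (Nat.zero_le _) (Nat.zero_le _) (Nat.zero_le _) (Nat.zero_le _) (show 1 ≤ v 6 by omega) (Nat.zero_le _),
            by decide +kernel, units8 _ ⟨8, by decide +kernel, le_refl _⟩ ⟨8, by decide +kernel, by omega⟩ ⟨16, by decide +kernel, by omega⟩ ⟨16, by decide +kernel, by omega⟩⟩
        exfalso; omega
      by_cases c40 : 2 ≤ v 1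
      · exact Or.inl ⟨(![0, 2, 0, 0, 0, 0, 1, 0] : Fin 8 → ℕ), all8 _ (Nat.zero_le _) (show 2 ≤ v 1 by omega) (Nat.zero_le _) (Nat.zero_le _) (Nat.zero_le _) (Nat.zero_le _) (show 1 ≤ v 6 by omega) (Nat.zero_le _),
          by decide +kernel, units8 _ ⟨8, by decide +kernel, le_refl _⟩ ⟨8, by decide +kernel, by omega⟩ ⟨16, by decide +kernel, by omega⟩ ⟨16, by decide +kernel, by omega⟩⟩
      exfalso; omega
    by_cases c41 : 1 ≤ v 3
    · by_cases c42 : 1 ≤ v 5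
      · exact Or.inl ⟨(![0, 0, 0, 1, 0, 1, 0, 0] : Fin 8 → ℕ), all8 _ (Nat.zero_le _) (Nat.zero_le _) (Nat.zero_le _) (show 1 ≤ v 3 by omega) (Nat.zero_le _) (show 1 ≤ v 5 by omega) (Nat.zero_le _) (Nat.zero_le _),
          by decide +kernel, units8 _ ⟨8, by decide +kernel, le_refl _⟩ ⟨8, by decide +kernel, by omega⟩ ⟨8, by decide +kernel, by omega⟩ ⟨8, by decide +kernel, by omega⟩⟩
      by_cases c43 : 1 ≤ v 4
      · by_cases c44 : 2 ≤ v 4
        · exact Or.inl ⟨(![0, 0, 0, 0, 2, 0, 0, 0] : Fin 8 → ℕ), all8 _ (Nat.zero_le _) (Nat.zero_le _) (Nat.zero_le _) (Nat.zero_le _) (show 2 ≤ v 4 by omega) (Nat.zero_le _) (Nat.zero_le _) (Nat.zero_le _),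
            by decide +kernel, units8 _ ⟨8, by decide +kernel, le_refl _⟩ ⟨8, by decide +kernel, by omega⟩ ⟨8, by decide +kernel, by omega⟩ ⟨8, by decide +kernel, by omega⟩⟩
        exact Or.inl ⟨(![0, 1, 0, 1, 1, 0, 0, 0] : Fin 8 → ℕ), all8 _ (Nat.zero_le _) (show 1 ≤ v 1 by omega) (Nat.zero_le _) (show 1 ≤ v 3 by omega) (show 1 ≤ v 4 by omega) (Nat.zero_le _) (Nat.zero_le _) (Nat.zero_le _),
          by decide +kernel, units8 _ ⟨8, by decide +kernel, le_refl _⟩ ⟨8, by decide +kernel, by omega⟩ ⟨16, by decide +kernel, by omega⟩ ⟨16, by decide +kernel, by omega⟩⟩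
      by_cases c45 : 2 ≤ v 1
      · by_cases c46 : 2 ≤ v 3
        · exact Or.inl ⟨(![0, 2, 0, 2, 0, 0, 0, 0] : Fin 8 → ℕ), all8 _ (Nat.zero_le _) (show 2 ≤ v 1 by omega) (Nat.zero_le _) (show 2 ≤ v 3 by omega) (Nat.zero_le _) (Nat.zero_le _) (Nat.zero_le _) (Nat.zero_le _),
            by decide +kernel, units8 _ ⟨8, by decide +kernel, le_refl _⟩ ⟨8, by decide +kernel, by omega⟩ ⟨24, by decide +kernel, by omega⟩ ⟨24, by decide +kernel, by omega⟩⟩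
        by_cases c47 : 5 ≤ v 1
        · exact Or.inl ⟨(![0, 5, 0, 1, 0, 0, 0, 0] : Fin 8 → ℕ), all8 _ (Nat.zero_le _) (show 5 ≤ v 1 by omega) (Nat.zero_le _) (show 1 ≤ v 3 by omega) (Nat.zero_le _) (Nat.zero_le _) (Nat.zero_le _) (Nat.zero_le _),
            by decide +kernel, units8 _ ⟨8, by decide +kernel, le_refl _⟩ ⟨16, by decide +kernel, by omega⟩ ⟨32, by decide +kernel, by omega⟩ ⟨40, by decide +kernel, by omega⟩⟩
        exfalso; first | omega | (rcases (by omega : v 1 = 2 ∨ v 1 = 3 ∨ v 1 = 4) with q1 | q1 | q1 <;> omega)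
      exfalso; omega
    by_cases c48 : 1 ≤ v 5
    · exact Or.inr ⟨1, 5, 2, 4, by decide +kernel, Or.inl ⟨by decide, by omega, by omega⟩⟩
    by_cases c49 : 1 ≤ v 4
    · by_cases c50 : 2 ≤ v 4
      · exact Or.inl ⟨(![0, 0, 0, 0, 2, 0, 0, 0] : Fin 8 → ℕ), all8 _ (Nat.zero_le _) (Nat.zero_le _) (Nat.zero_le _) (Nat.zero_le _) (show 2 ≤ v 4 by omega) (Nat.zero_le _) (Nat.zero_le _) (Nat.zero_le _),
          by decide +kernel, units8 _ ⟨8, by decide +kernel, le_refl _⟩ ⟨8, by decide +kernel, by omega⟩ ⟨8, by decide +kernel, by omega⟩ ⟨8, by decide +kernel, by omega⟩⟩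
      by_cases c51 : 4 ≤ v 1
      · exact Or.inl ⟨(![0, 4, 0, 0, 1, 0, 0, 0] : Fin 8 → ℕ), all8 _ (Nat.zero_le _) (show 4 ≤ v 1 by omega) (Nat.zero_le _) (Nat.zero_le _) (show 1 ≤ v 4 by omega) (Nat.zero_le _) (Nat.zero_le _) (Nat.zero_le _),
          by decide +kernel, units8 _ ⟨8, by decide +kernel, le_refl _⟩ ⟨16, by decide +kernel, by omega⟩ ⟨24, by decide +kernel, by omega⟩ ⟨32, by decide +kernel, by omega⟩⟩
      exfalso; first | omega | (rcases (by omega : v 1 = 1 ∨ v 1 = 2 ∨ v 1 = 3) with q1 | q1 | q1 <;> omega)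
    by_cases c52 : 8 ≤ v 1
    · exact Or.inl ⟨(![0, 8, 0, 0, 0, 0, 0, 0] : Fin 8 → ℕ), all8 _ (Nat.zero_le _) (show 8 ≤ v 1 by omega) (Nat.zero_le _) (Nat.zero_le _) (Nat.zero_le _) (Nat.zero_le _) (Nat.zero_le _) (Nat.zero_le _),
        by decide +kernel, units8 _ ⟨8, by decide +kernel, le_refl _⟩ ⟨24, by decide +kernel, by omega⟩ ⟨40, by decide +kernel, by omega⟩ ⟨56, by decide +kernel, by omega⟩⟩
    exfalso; first | omega | (rcases (by omega : v 1 = 1 ∨ v 1 = 2 ∨ v 1 = 3 ∨ v 1 = 4 ∨ v 1 = 5 ∨ v 1 = 6 ∨ v 1 = 7) with q1 | q1 | q1 | q1 | q1 | q1 | q1 <;> omega)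
  by_cases c53 : 1 ≤ v 7
  · by_cases c54 : 1 ≤ v 2
    · by_cases c55 : 1 ≤ v 6
      · exact Or.inl ⟨(![0, 0, 1, 0, 0, 0, 1, 0] : Fin 8 → ℕ), all8 _ (Nat.zero_le _) (Nat.zero_le _) (show 1 ≤ v 2 by omega) (Nat.zero_le _) (Nat.zero_le _) (Nat.zero_le _) (show 1 ≤ v 6 by omega) (Nat.zero_le _),
          by decide +kernel, units8 _ ⟨8, by decide +kernel, le_refl _⟩ ⟨8, by decide +kernel, by omega⟩ ⟨8, by decide +kernel, by omega⟩ ⟨8, by decide +kernel, by omega⟩⟩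
      by_cases c56 : 1 ≤ v 3
      · exact Or.inr ⟨3, 7, 4, 6, by decide +kernel, Or.inl ⟨by decide, by omega, by omega⟩⟩
      exfalso; omega
    exfalso; omega
  by_cases c57 : 1 ≤ v 2
  · by_cases c58 : 1 ≤ v 6
    · exact Or.inl ⟨(![0, 0, 1, 0, 0, 0, 1, 0] : Fin 8 → ℕ), all8 _ (Nat.zero_le _) (Nat.zero_le _) (show 1 ≤ v 2 by omega) (Nat.zero_le _) (Nat.zero_le _) (Nat.zero_le _) (show 1 ≤ v 6 by omega) (Nat.zero_le _),
        by decide +kernel, units8 _ ⟨8, by decide +kernel, le_refl _⟩ ⟨8, by decide +kernel, by omega⟩ ⟨8, by decide +kernel, by omega⟩ ⟨8, by decide +kernel, by omega⟩⟩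
    by_cases c59 : 1 ≤ v 3
    · by_cases c60 : 1 ≤ v 5
      · exact Or.inl ⟨(![0, 0, 0, 1, 0, 1, 0, 0] : Fin 8 → ℕ), all8 _ (Nat.zero_le _) (Nat.zero_le _) (Nat.zero_le _) (show 1 ≤ v 3 by omega) (Nat.zero_le _) (show 1 ≤ v 5 by omega) (Nat.zero_le _) (Nat.zero_le _),
          by decide +kernel, units8 _ ⟨8, by decide +kernel, le_refl _⟩ ⟨8, by decide +kernel, by omega⟩ ⟨8, by decide +kernel, by omega⟩ ⟨8, by decide +kernel, by omega⟩⟩
      by_cases c61 : 1 ≤ v 4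
      · by_cases c62 : 2 ≤ v 4
        · exact Or.inl ⟨(![0, 0, 0, 0, 2, 0, 0, 0] : Fin 8 → ℕ), all8 _ (Nat.zero_le _) (Nat.zero_le _) (Nat.zero_le _) (Nat.zero_le _) (show 2 ≤ v 4 by omega) (Nat.zero_le _) (Nat.zero_le _) (Nat.zero_le _),
            by decide +kernel, units8 _ ⟨8, by decide +kernel, le_refl _⟩ ⟨8, by decide +kernel, by omega⟩ ⟨8, by decide +kernel, by omega⟩ ⟨8, by decide +kernel, by omega⟩⟩
        by_cases c63 : 2 ≤ v 3
        · exact Or.inl ⟨(![0, 0, 1, 2, 0, 0, 0, 0] : Fin 8 → ℕ), all8 _ (Nat.zero_le _) (Nat.zero_le _) (show 1 ≤ v 2 by omega) (show 2 ≤ v 3 by omega) (Nat.zero_le _) (Nat.zero_le _) (Nat.zero_le _) (Nat.zero_le _),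
            by decide +kernel, units8 _ ⟨8, by decide +kernel, le_refl _⟩ ⟨8, by decide +kernel, by omega⟩ ⟨16, by decide +kernel, by omega⟩ ⟨16, by decide +kernel, by omega⟩⟩
        exfalso; omega
      by_cases c64 : 2 ≤ v 3
      · exact Or.inl ⟨(![0, 0, 1, 2, 0, 0, 0, 0] : Fin 8 → ℕ), all8 _ (Nat.zero_le _) (Nat.zero_le _) (show 1 ≤ v 2 by omega) (show 2 ≤ v 3 by omega) (Nat.zero_le _) (Nat.zero_le _) (Nat.zero_le _) (Nat.zero_le _),
          by decide +kernel, units8 _ ⟨8, by decide +kernel, le_refl _⟩ ⟨8, by decide +kernel, by omega⟩ ⟨16, by decide +kernel, by omega⟩ ⟨16, by decide +kernel, by omega⟩⟩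
      exfalso; omega
    by_cases c65 : 1 ≤ v 5
    · exfalso; omega
    by_cases c66 : 1 ≤ v 4
    · by_cases c67 : 2 ≤ v 4
      · exact Or.inl ⟨(![0, 0, 0, 0, 2, 0, 0, 0] : Fin 8 → ℕ), all8 _ (Nat.zero_le _) (Nat.zero_le _) (Nat.zero_le _) (Nat.zero_le _) (show 2 ≤ v 4 by omega) (Nat.zero_le _) (Nat.zero_le _) (Nat.zero_le _),
          by decide +kernel, units8 _ ⟨8, by decide +kernel, le_refl _⟩ ⟨8, by decide +kernel, by omega⟩ ⟨8, by decide +kernel, by omega⟩ ⟨8, by decide +kernel, by omega⟩⟩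
      by_cases c68 : 4 ≤ v 2
      · exact Or.inl ⟨(![0, 0, 4, 0, 0, 0, 0, 0] : Fin 8 → ℕ), all8 _ (Nat.zero_le _) (Nat.zero_le _) (show 4 ≤ v 2 by omega) (Nat.zero_le _) (Nat.zero_le _) (Nat.zero_le _) (Nat.zero_le _) (Nat.zero_le _),
          by decide +kernel, units8 _ ⟨8, by decide +kernel, le_refl _⟩ ⟨24, by decide +kernel, by omega⟩ ⟨8, by decide +kernel, by omega⟩ ⟨24, by decide +kernel, by omega⟩⟩
      by_cases c69 : 2 ≤ v 2
      · exact Or.inl ⟨(![0, 0, 2, 0, 1, 0, 0, 0] : Fin 8 → ℕ), all8 _ (Nat.zero_le _) (Nat.zero_le _) (show 2 ≤ v 2 by omega) (Nat.zero_le _) (show 1 ≤ v 4 by omega) (Nat.zero_le _) (Nat.zero_le _) (Nat.zero_le _),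
          by decide +kernel, units8 _ ⟨8, by decide +kernel, le_refl _⟩ ⟨16, by decide +kernel, by omega⟩ ⟨8, by decide +kernel, by omega⟩ ⟨16, by decide +kernel, by omega⟩⟩
      exfalso; omega
    by_cases c70 : 4 ≤ v 2
    · exact Or.inl ⟨(![0, 0, 4, 0, 0, 0, 0, 0] : Fin 8 → ℕ), all8 _ (Nat.zero_le _) (Nat.zero_le _) (show 4 ≤ v 2 by omega) (Nat.zero_le _) (Nat.zero_le _) (Nat.zero_le _) (Nat.zero_le _) (Nat.zero_le _),
        by decide +kernel, units8 _ ⟨8, by decide +kernel, le_refl _⟩ ⟨24, by decide +kernel, by omega⟩ ⟨8, by decide +kernel, by omega⟩ ⟨24, by decide +kernel, by omega⟩⟩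
    exfalso; first | omega | (rcases (by omega : v 2 = 1 ∨ v 2 = 2 ∨ v 2 = 3) with q2 | q2 | q2 <;> omega)
  by_cases c71 : 1 ≤ v 6
  · exfalso; omega
  by_cases c72 : 1 ≤ v 3
  · by_cases c73 : 1 ≤ v 5
    · exact Or.inl ⟨(![0, 0, 0, 1, 0, 1, 0, 0] : Fin 8 → ℕ), all8 _ (Nat.zero_le _) (Nat.zero_le _) (Nat.zero_le _) (show 1 ≤ v 3 by omega) (Nat.zero_le _) (show 1 ≤ v 5 by omega) (Nat.zero_le _) (Nat.zero_le _),
        by decide +kernel, units8 _ ⟨8, by decide +kernel, le_refl _⟩ ⟨8, by decide +kernel, by omega⟩ ⟨8, by decide +kernel, by omega⟩ ⟨8, by decide +kernel, by omega⟩⟩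
    exfalso; omega
  by_cases c74 : 1 ≤ v 5
  · exfalso; omega
  by_cases c75 : 1 ≤ v 4
  · by_cases c76 : 2 ≤ v 4
    · exact Or.inl ⟨(![0, 0, 0, 0, 2, 0, 0, 0] : Fin 8 → ℕ), all8 _ (Nat.zero_le _) (Nat.zero_le _) (Nat.zero_le _) (Nat.zero_le _) (show 2 ≤ v 4 by omega) (Nat.zero_le _) (Nat.zero_le _) (Nat.zero_le _),
        by decide +kernel, units8 _ ⟨8, by decide +kernel, le_refl _⟩ ⟨8, by decide +kernel, by omega⟩ ⟨8, by decide +kernel, by omega⟩ ⟨8, by decide +kernel, by omega⟩⟩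
    exfalso; omega
  exfalso; omega

lemma phi8_pos : ∀ x : ZMod 8, x ≠ 0 → 0 < phi8 x := by decide +kernel

end Pool.Agent.Q326.ZS
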